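import Pool.Agent.helper49.SP.Defs
import Pool.Agent.helper64.TP.SpecF

/-!
# Project sp, piece C1, pivotal side of case (i) (`U1i_stmt`)

A pivotal site in `box x (2 ^ (t + 1))` together with no pivotal site in an annulus gives, in the
case `f = 1`, four arms which are robust under recolouring one brick of the annulus white, hence
the event `six`; in the case `f = 0` the same for the flipped colouring. Independence and
quasi-multiplicativity give the bound.

Modules: `UI1` ... `UI9`; `UI9` is `U1i_stmt`. The planar statements of project dp (`AM_stmt`,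
`TC_stmt`, ...) hold for arbitrary colourings and are used directly (`DP.AM_stmt`, `DP.TC_stmt`,
proofs `Pool/Agent/helper7/DP/AM.lean`, `Pool/Agent/helper51/DP/TC.lean`); any of them may be a
hypothesis.
-/

namespace TP

open DP MeasureTheory

/-- Inner four arms, thick arms, outer four arms (three independent events). -/
def gapE (x : V) (r m' m n n' N : ℕ) : Set (V → Bool) :=
  Ev fun c => four c x r m' ∧ six c x m n ∧ four c x n' N

/-- Changing the colours in `box x r` changes a connection between far sites: two crossing clusters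
around the box. Proof: take the path (list or `ReflTransGen`) from `u` to `v` for `c`; it must meet
`box x r` (otherwise it is a path for `c'`). Let `p ∈ bd x (r + 1)` be the site before the first
visit of `box x r` (the part of the path before `p` is outside `box x r`; after its last visit of
`bd x n` before `p` it stays in `ann x (r + 1) n`: so `p` is connected to `bd x n` in the annulus),
`q ∈ bd x (r + 1)` the site after the last visit. If `p` and `q` were connected in the annulus, `u`
and `v` would be connected outside `box x r`, where `c = c'`. (Compare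
`Pool/Agent/helper51/DP/PVC.lean`.) -/
def UI1_stmt : Prop :=
  ∀ (c c' : V → Bool) (k : Bool) (W : Set V) (x : V) (r n : ℕ) (u v : V), r + 1 ≤ n →
    box x n ⊆ W → n ≤ sd x u → n ≤ sd x v → (∀ w, r < sd x w → c w = c' w) → Conn c k W u v →
      ¬ Conn c' k W u v → twoCl c k x (r + 1) n

/-- A pivotal site near `x` and no pivotal site in the annulus (left sites of bricks at distance
between `m - 1` and `n + 1`): recolouring one brick of the annulus keeps the four arms.
Proof: `Fc i` is increasing. Let `b ∈ Fc i`; `v ∈ PV i b` gives `b (v := false) ∉ Fc i` and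
`b (z := false) ∈ Fc i` for `z = br w`, `w ∈ ann x m n` (`z ∈ VV i` because `box x N` is inside the
rectangle; `br w` is at distance at most one from `w`), `b (z := false, v := false) ∉ Fc i` by
monotonicity. The colourings of `b (z := false)` and `b (z := false, v := false)` agree outside
`box x (r + 1)` (the brick of `v` is `{v, (v.1 + 1, v.2)}`, `v` even) and the first one is
`rc (col b) w false`. `UI1` with the end points of the crossing (they are on the left and right side
of the rectangle, hence at distance `≥ N` from `x`). For `b ∉ Fc i`: the same with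
`b (z := true) ∉ Fc i`, `b (z := true, v := true) ∈ Fc i` (apply `UI1` to the second one, its
colouring agrees with `rc (col b) w true` in the annulus `ann x (r + 2) N`). -/
def UI2_stmt : Prop :=
  ∀ (i : ℕ) (b : V → Bool) (x v : V) (r m n N : ℕ), r + 3 ≤ m → m ≤ n → n + 2 ≤ N →
    box x N ⊆ rect 1 (2 * 2 ^ i) 0 (hh (2 ^ i)) → v ∈ PV i b → sd x v ≤ r →
    (∀ z ∈ PV i b, ¬ (m ≤ sd x z + 1 ∧ sd x z ≤ n + 1)) →
      (b ∈ Fc i → ∀ w ∈ ann x m n, four (rc (col b) w false) x (r + 2) N) ∧
        (b ∉ Fc i → ∀ w ∈ ann x m n, four (rc (col b) w true) x (r + 2) N)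

/-- The thick arms (`six` of `SP/Defs`: two white crossing sites `p`, `q` which are not connected by
white in the annulus for every recolouring of one brick to white). Case `b ∈ Fc i`: `b (v := false)`
is not in `Fc i`, so it has a white bottom to top path in the rectangle (`DP.HX_stmt` for
`1 ≤ v.1 ≤ 2 * 2 ^ i`, `0 ≤ v.2 ≤ hh`), which passes through the brick of `v` (otherwise `DP.RC_stmt`
contradicts the black crossing of `b`). Let `p`, `q` be the sites of `bd x m` before the first and
after the last visit of `box x (m - 1)`; the two tails are white for `col b`, `p` and `q` are white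
crossing sites. If `Conn (rc (col b) w false) false (ann x m n) p q` for some `w` in the annulus, then
`b (br w := false)` has a white bottom to top path in the rectangle, so it is not in `Fc i`
(`DP.RC_stmt`): `br w` would be pivotal. Case `b ∉ Fc i`: the same for `fl (col b)` with the black left
to right path of `b (v := true)` through `v` (no planarity needed). -/
def UI10_stmt : Prop :=
  ∀ (i : ℕ) (b : V → Bool) (x v : V) (r m n N : ℕ), r + 3 ≤ m → m < n → n + 2 ≤ N →
    box x N ⊆ rect 1 (2 * 2 ^ i) 0 (hh (2 ^ i)) → v ∈ PV i b → sd x v ≤ r →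
    (∀ z ∈ PV i b, ¬ (m ≤ sd x z + 1 ∧ sd x z ≤ n + 1)) →
      (b ∈ Fc i → six (col b) x m n) ∧ (b ∉ Fc i → six (fl (col b)) x m n)

/-- Colour symmetry of the four arm event (from `DP.TC_stmt`: `Conn (fl c) true` is
`Conn c false`). -/
def UI3_stmt : Prop :=
  ∀ (c : V → Bool) (x : V) (m n : ℕ), Even (x.1 + x.2) → 1 ≤ m → m < n →
    (four (fl c) x m n ↔ four c x m n)

/-- From `UI2`, `UI3`, `UI10` and monotonicity (`DP.AM_stmt` with `j = 4`): restrict the four arms
between `r + 2` and `N` (for one site `w` of the annulus) to the inner and the outer annulus;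
`rc (col b) w k` agrees with `col b` at distance `≤ m - 2` and `≥ n + 2` from `x`; `six` is `UI10`;
`rc (fl c) w false = fl (rc c w true)` and `col (fun v => !(b v)) = fl (col b)` (definitional). -/
def UI4_stmt : Prop :=
  ∀ (i : ℕ) (b : V → Bool) (x : V) (r m' m n n' N : ℕ), Even (x.1 + x.2) → r + 2 < m' →
    m' + 2 ≤ m → m < n → n + 2 ≤ n' → n' < N → box x N ⊆ rect 1 (2 * 2 ^ i) 0 (hh (2 ^ i)) →
    (∃ v ∈ PV i b, sd x v ≤ r) → (∀ z ∈ PV i b, ¬ (m ≤ sd x z + 1 ∧ sd x z ≤ n + 1)) →
      b ∈ gapE x (r + 2) m' m n n' N ∨ (fun v => !(b v)) ∈ gapE x (r + 2) m' m n n' N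

/-- Locality: `four` and `six` depend on the colours in the annulus (a finite set; `rc c v false` in
the annulus is determined by `c` in the annulus): `Loc.ev`, `Conn.congr`. -/
def UI5_stmt : Prop :=
  ∀ (x : V) (m n : ℕ), Loc (Ev fun c => four c x m n) (ann x m n) ∧
    Loc (Ev fun c => six c x m n) (ann x m n)

/-- Independence of the three events (`UI5`, `Bindep_stmt`, `Bzero_stmt` with `ρ = 0`; sites at
distance at least two are in different bricks: `BDis.of_sd`). -/
def UI6_stmt : Prop :=
  ∀ (x : V) (r m' m n n' N : ℕ), m' + 2 ≤ m → m ≤ n → n + 2 ≤ n' →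
    Pr (gapE x r m' m n n' N) = Pr (Ev fun c => four c x r m') * Pr (Ev fun c => six c x m n) *
      Pr (Ev fun c => four c x n' N)

/-- Translation by vectors of even coordinate sum (`br` commutes with them); `Bsym_stmt` with
`ρ = 0` (or `Pr` directly). First part: every local event; second part: the events used here. -/
def UI7_stmt : Prop :=
  (∀ (p : (V → Bool) → Prop) (x : V), (x.1 + x.2) % 2 = 0 → Loc (Ev p) Set.univ →
    Pr (Ev fun c => p fun v => c (v.1 + x.1, v.2 + x.2)) = Pr (Ev p)) ∧
  ∀ (x : V) (m n : ℕ), (x.1 + x.2) % 2 = 0 →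
    Pr (Ev fun c => four c x m n) = Pr (Ev fun c => four c 0 m n) ∧
      Pr (Ev fun c => six c x m n) = Pr (Ev fun c => six c 0 m n)

/-- Quasi-multiplicativity in terms of `a4` (`QZ_stmt`, `QMX_stmt`, `EXR_stmt`, `SUB_stmt` of
`helper64/TP/SpecE.lean`, `SpecF.lean`, `j = 4`, `ρ = 0`, centre `0`). -/
def UI8_stmt : Prop :=
  ∃ (C : ℝ) (k₀ : ℕ), 1 ≤ C ∧
    (∀ a b d, k₀ ≤ a → a < b → b < d → a4 a b * a4 b d ≤ C * a4 a d) ∧
    (∀ a b d, k₀ ≤ a → a < b → b < d → a4 a d ≤ C * (a4 a b * a4 b d)) ∧
    (∀ a b r, k₀ ≤ a → a < b → a4 (a + r) (b + r) ≤ C ^ r * a4 a (b + r)) ∧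
    (∀ a b r, k₀ ≤ a → a < b → a4 a b ≤ C ^ r * a4 a (b + r)) ∧
    ∀ a b, k₀ ≤ a → a < b → 0 < a4 a b

/-- The thick arms event `six` is at most as likely (up to a constant) as three different black
crossing clusters (`a6`): colour switching (module of helper96). -/
def SIXU_stmt : Prop :=
  ∃ (C : ℝ) (k₀ : ℕ), 0 ≤ C ∧ ∀ p q : ℕ, k₀ ≤ p → p + k₀ ≤ q →
    Pr (Ev fun c => six c 0 (2 ^ p) (2 ^ q)) ≤ C * a6 p q

/-- The pivotal side of case (i). Proof: `UI4` with `r = 2 ^ (t + 1)`, `m' = 2 ^ p`,
`m = 2 ^ (p + 1)`, `n = 2 ^ (p + m - 1)`, `n' = 2 ^ (p + m)`, `N = 2 ^ (i - k)`; colour flip: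
`Bflip_stmt` with `φ = Equiv.refl V`; `UI6`, `UI7`; `a4 (t + 2) p` is at least the probability of
four arms between `2 ^ (t + 1) + 2` and `2 ^ p` (`AM`); `UI8`:
`a4 (t + 2) p * a4 p (p + m) * a4 (p + m) (i - k) ≤ C ^ 4 * a4 t (i - k)`; `SIXU` for the thick
arms. Take `k₀ ≥ 4` and at least the `k₀` of `UI8` and of `SIXU` plus 2. -/
def UI9_stmt : Prop := U1i_stmt

end TP
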