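import Pool.Agent.helper49.SP.Defs

/-!
# Project sp: averages over coins (common definitions)
-/

namespace TP

open DP MeasureTheory

open Classical in
/-- The coins in `U` are taken from `b'`, the other ones from `b`. -/
noncomputable def mx (U : Set V) (b b' : V → Bool) : V → Bool :=
  fun v => if v ∈ U then b' v else b v

/-- Average over the coins in `U`. -/
noncomputable def av (U : Set V) (g : (V → Bool) → ℝ) (b : V → Bool) : ℝ :=
  ∫ b', g (mx U b b') ∂P1

/-- `1 - av U`. -/
noncomputable def dl (U : Set V) (g : (V → Bool) → ℝ) (b : V → Bool) : ℝ := g b - av U g b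

/-- `g` depends only on the coins in `A`. -/
def DepR (g : (V → Bool) → ℝ) (A : Set V) : Prop :=
  ∀ b b' : V → Bool, (∀ v ∈ A, b v = b' v) → g b = g b'

/-- `g` depends only on finitely many coins. -/
def FinR (g : (V → Bool) → ℝ) : Prop := ∃ Λ : Finset V, DepR g (Λ : Set V)

/-- `dl (A 0) (dl (A 1) (... (dl (A (J - 1)) g)))`. -/
noncomputable def dls (A : ℕ → Set V) : ℕ → ((V → Bool) → ℝ) → (V → Bool) → ℝ
  | 0, g => g
  | J + 1, g => dls A J (dl (A J) g)

end TP
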