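import Pool.Agent.helper33.SP.SpecC1
import Pool.Agent.helper33.SP.FODefs
import Pool.Agent.helper95.SP.SpecCH

/-!
# Project sp, piece C1, spectral side of case (i) (`U2i_stmt`)

Modules `UJ1` ... `UJ20`, file `Pool/Agent/<seat>/SP/UJ1.lean`, `theorem UJ1 ... : UJ1_stmt`. Any
statement of the other specification files may be a hypothesis.

Overview. `PS i (X hits box x (2 ^ t) and all the A j) = ∫ (dls A J (dl U f)) ^ 2` (`UJ3`),
`f = pmf (Fc i)`. By Jensen (`UJ8`) it is at most the average over `b''` of `∫ (dls A J g) ^ 2`,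
`g b = f b - f (mx U b b'')`. All the coins outside of the `A j` being fixed, `g` contains the factor
`1[four arms through the scale j]` if the two annuli next to `A j` are gates (`UJ14`), so
`∫ (dls A J g) ^ 2 ≤ ∫ g ^ 2 ∏ (1 - w j)` (`UJ7`), where `w j = θ` on the event that the two annuli
are gates and the conditional probability of four arms through the scale is at least `θ`. This
weight is at least of order `θ` with standard arms (`UJ17`), and the chain lemma (`K.CHE_stmt`)
concludes (`UJ20`).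
-/

namespace TP

open DP MeasureTheory

/-! ## Finite product analysis (coins) -/

/-- Character. -/
noncomputable def chr (T : Finset V) (b : V → Bool) : ℝ := ∏ v ∈ T, sg (b v)

/-- Fourier expansion of an event which depends on the coins in `Λ`. (Finite induction on `Λ`, or:
the functions `chr T`, `T ⊆ Λ`, are orthonormal and there are `2 ^ |Λ|` of them; or directly
`∑ T ⊆ Λ, chr T b * chr T b' = ∏ v ∈ Λ, (1 + sg (b v) * sg (b' v))` which is `2 ^ |Λ|` if `b = b'` on
`Λ` and `0` otherwise, and the coins in `Λ` are fair and independent.) -/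
def UJ1_stmt : Prop :=
  ∀ (F : Set (V → Bool)) (Λ : Finset V), DP.Dep F (Λ : Set V) → ∀ b,
    pmf F b = ∑ T ∈ Λ.powerset, fh F T * chr T b

open Classical in
/-- Orthonormality, and the action of the averages on characters (the character of the coins in `W`
has mean zero if it is not constant). -/
def UJ2_stmt : Prop :=
  (∀ (T T' : Finset V), ∫ b, chr T b * chr T' b ∂P1 = if T = T' then 1 else 0) ∧
  (∀ (W : Set V) (T : Finset V) (b : V → Bool),
    av W (chr T) b = if ∀ v ∈ T, v ∉ W then chr T b else 0) ∧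
  (∀ (W : Set V) (T : Finset V) (b : V → Bool),
    dl W (chr T) b = if ∃ v ∈ T, v ∈ W then chr T b else 0) ∧
  (∀ (W : Set V) (s : Finset (Finset V)) (a : Finset V → ℝ) (b : V → Bool),
    av W (fun b => ∑ T ∈ s, a T * chr T b) b = ∑ T ∈ s, a T * av W (chr T) b)

/-- Spectral identity: from `UJ1`, `UJ2` (induction on `J` for `dls`). -/
def UJ3_stmt : Prop :=
  ∀ (F : Set (V → Bool)) (Λ : Finset V) (W : Set V) (U : ℕ → Set V) (J : ℕ),
    DP.Dep F (Λ : Set V) →
      PSF F Λ (fun X => (∀ v ∈ X, v ∉ W) ∧ ∀ l < J, ∃ v ∈ X, v ∈ U l) =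
        ∫ b, (av W (dls U J (pmf F)) b) ^ 2 ∂P1

/-- `Fc i` depends only on the coins in `VV i` (the left site of the brick of a site of the
rectangle `rect 1 (2 * 2 ^ i) 0 hh` is in `VV i`) and is increasing. -/
def UJ4_stmt : Prop :=
  ∀ i : ℕ, DP.Dep (Fc i) (VV i : Set V) ∧ DP.Mon true (Fc i)

/-- Rules for averages of functions of finitely many coins (all by reduction to finitely many
coins; `∫ av U g = ∫ g` because `(b, b') ↦ mx U b b'` preserves the law). -/
def UJ5_stmt : Prop :=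
  (∀ (U : Set V) (g : (V → Bool) → ℝ), FinR g → FinR (av U g) ∧ FinR (dl U g) ∧
    Integrable g P1 ∧ ∫ b, av U g b ∂P1 = ∫ b, g b ∂P1) ∧
  (∀ (U : Set V) (g : (V → Bool) → ℝ) (b b' : V → Bool), FinR g → (∀ v, v ∉ U → b v = b' v) →
    av U g b = av U g b') ∧
  (∀ (U : Set V) (g h : (V → Bool) → ℝ), FinR g → FinR h →
    (∀ b, av U (fun b => g b + h b) b = av U g b + av U h b) ∧
    (∀ (r : ℝ) b, av U (fun b => r * g b) b = r * av U g b) ∧
    ((∀ b, g b ≤ h b) → ∀ b, av U g b ≤ av U h b)) ∧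
  (∀ (U : Set V) (g h : (V → Bool) → ℝ), FinR g → FinR h →
    (∀ b b' : V → Bool, (∀ v, v ∉ U → b v = b' v) → h b = h b') →
      ∀ b, av U (fun b => h b * g b) b = h b * av U g b) ∧
  (∀ (U U' : Set V) (g : (V → Bool) → ℝ), FinR g → Disjoint U U' →
    ∀ b, av U (av U' g) b = av (U ∪ U') g b) ∧
  (∀ (U : Set V) (g : (V → Bool) → ℝ) (A : Set V), DepR g A → DepR (av U g) (A \ U))

/-- ONE STEP of the product rule. Pointwise in the coins outside `A`: where `w > 0` the function
`H` is `1[d]` times a number `h` as a function of the coins in `A`, so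
`av A ((H - av A H) ^ 2) = p (1 - p) h ^ 2 = (1 - p) av A (H ^ 2)` with `p = P(d) ≥ w`; in general
`av A ((H - av A H) ^ 2) ≤ av A (H ^ 2)`. Multiply with `Z` and integrate (`UJ5`). -/
def UJ6_stmt : Prop :=
  ∀ (A : Set V) (H Z w : (V → Bool) → ℝ) (d : Set (V → Bool)) (Λ : Finset V), FinR H → FinR Z →
    FinR w → DP.Dep d (Λ : Set V) → (∀ b, 0 ≤ Z b) → (∀ b, 0 ≤ w b ∧ w b ≤ 1) →
    (∀ b b' : V → Bool, (∀ v, v ∉ A → b v = b' v) → Z b = Z b' ∧ w b = w b') →
    (∀ b, 0 < w b → b ∉ d → H b = 0) →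
    (∀ b b' : V → Bool, (∀ v, v ∉ A → b v = b' v) → 0 < w b → b ∈ d → b' ∈ d → H b = H b') →
    (∀ b, w b ≤ Pr {b' | mx A b b' ∈ d}) →
      ∫ b, Z b * (dl A H b) ^ 2 ∂P1 ≤ ∫ b, Z b * (1 - w b) * H b ^ 2 ∂P1

/-- PRODUCT RULE. Induction on `J` (for all `Z ≥ 0` which do not depend on the coins in the `A j`):
`dls A (J + 1) g = dls A J g'` with `g' = dl (A J) g`; `g'` satisfies the hypotheses for `j < J`
(averaging over the coins in `A J` changes neither `w j` nor `d j`), then `UJ6` for `A J` with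
`Z` replaced by `Z * ∏ j < J, (1 - w j)`. -/
def UJ7_stmt : Prop :=
  ∀ (J : ℕ) (A : ℕ → Set V) (g : (V → Bool) → ℝ) (w : ℕ → (V → Bool) → ℝ)
    (d : ℕ → Set (V → Bool)), FinR g → (∀ j < J, FinR (w j)) →
    (∀ j < J, ∃ Λ : Finset V, DP.Dep (d j) (Λ : Set V)) →
    (∀ j < J, ∀ b, 0 ≤ w j b ∧ w j b ≤ 1) →
    (∀ j < J, ∀ i < J, ∀ b b' : V → Bool, (∀ v, v ∉ A i → b v = b' v) → w j b = w j b') →
    (∀ j < J, ∀ i < J, i ≠ j → ∀ b b' : V → Bool, (∀ v, v ∉ A i → b v = b' v) →
      (b ∈ d j ↔ b' ∈ d j)) →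
    (∀ j < J, ∀ b, 0 < w j b → b ∉ d j → g b = 0) →
    (∀ j < J, ∀ b b' : V → Bool, (∀ v, v ∉ A j → b v = b' v) → 0 < w j b → b ∈ d j → b' ∈ d j →
      g b = g b') →
    (∀ j < J, ∀ b, w j b ≤ Pr {b' | mx (A j) b b' ∈ d j}) →
      ∫ b, (dls A J g b) ^ 2 ∂P1 ≤ ∫ b, g b ^ 2 * ∏ j ∈ Finset.range J, (1 - w j b) ∂P1

/-- JENSEN. `dl U g b = ∫ (g b - g (mx U b b'')) db''`, `dls A J` is linear and the integral over
`b''` is a finite average (`g` depends on finitely many coins). -/
def UJ8_stmt : Prop :=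
  ∀ (J : ℕ) (A : ℕ → Set V) (U : Set V) (g : (V → Bool) → ℝ) (B : ℝ), FinR g →
    (∀ b'' : V → Bool, ∫ b, (dls A J (fun b => g b - g (mx U b b'')) b) ^ 2 ∂P1 ≤ B) →
      ∫ b, (dls A J (dl U g) b) ^ 2 ∂P1 ≤ B

/-! ## Gates (deterministic, arbitrary colourings) -/

/-- LINK. Two gates and four arms through both: the bits are equal. Proof: let `C`, `C'` be two
different black crossing clusters of `ann x a n'`; each of them contains exactly one of the two
crossing clusters of `ann x a n` and of `ann x m n'`. `hb c x a n` gives a connection in `box x n`,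
hence `hb c x m n'`. Conversely take a black path in `box x n'` from `C` to `C'`, its last site `p`
in `C` before it meets `C'` for the first time in `q`: then `p, q ∈ bd x a` and between `p` and `q` the
path stays in `box x (n - 1)` (it is in `box x (a - 1)` or in clusters of `ann x a n'` other than `C`
and `C'`; such a cluster which meets `bd x a` and `bd x n` would be a third crossing cluster of
`ann x a n`); `p` and `q` are in the crossing clusters of `ann x a n` contained in `C`, `C'`. -/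
def UJ9_stmt : Prop :=
  ∀ (c : V → Bool) (x : V) (a n m n' : ℕ), 1 ≤ a → a < n → n < m → m < n' → Gate c x a n →
    Gate c x m n' → four c x a n' → (hb c x a n ↔ hb c x m n')

/-- TRANSFER. Outside connections depend on the configuration inside a gate only through its bit.
Proof: if `hb` fails for both, every excursion of a path (from `s` to `t`, both outside) into
`box x (m - 1)` enters and leaves `box x n` through the same crossing cluster of the gate and can be
replaced by a path in this cluster, for both colourings; if `hb` holds for both, the two crossing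
clusters are connected in `box x n` for both colourings. (The excursions: between two consecutive
visits of `bd x n` with a visit of `box x (m - 1)` in between, the first and the last piece are
crossings of the annulus.) -/
def UJ10_stmt : Prop :=
  ∀ (c c' : V → Bool) (R : Set V) (x s t : V) (m n : ℕ), 1 ≤ m → m < n → Gate c x m n →
    (∀ v, m ≤ sd x v → c v = c' v) → (hb c x m n ↔ hb c' x m n) → box x n ⊆ R → n ≤ sd x s →
    n ≤ sd x t → (Conn c true R s t ↔ Conn c' true R s t)

/-- No four arms through the scale: outside connections do not depend on the configuration inside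
(`UI1` for both directions). -/
def UJ11_stmt : Prop :=
  ∀ (c c' : V → Bool) (R : Set V) (x s t : V) (m n : ℕ), 1 ≤ m → m < n → ¬ four c x m n →
    (∀ v, m ≤ sd x v → c v = c' v) → box x n ⊆ R → n ≤ sd x s → n ≤ sd x t →
      (Conn c true R s t ↔ Conn c' true R s t)

/-- Four arms through two gates: outside connections do not depend on the configuration between the
gates as long as there are four arms. From `UJ9` (for `c` and `c'`: `hb c x m n' ↔ hb c x a n`; the bit
at the inner gate depends only on the colours in `box x n`) and `UJ10` at the outer gate. -/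
def UJ12_stmt : Prop :=
  ∀ (c c' : V → Bool) (R : Set V) (x s t : V) (a n m n' : ℕ), 1 ≤ a → a < n → n < m → m < n' →
    Gate c x a n → Gate c x m n' → four c x a n' → four c' x a n' →
    (∀ v, sd x v ≤ n ∨ m ≤ sd x v → c v = c' v) → box x n' ⊆ R → n' ≤ sd x s → n' ≤ sd x t →
      (Conn c true R s t ↔ Conn c' true R s t)

/-! ## The weights -/

/-- The coins of the gap. -/
def Ag (x : V) (p m : ℕ) : Set V := {v | 2 ^ p < sd x v ∧ sd x v < 2 ^ (p + m)}

/-- Four arms through the scale (from the inner radius of the inner gate to the outer radius of the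
outer gate). -/
def thr (x : V) (p m g : ℕ) : Set (V → Bool) := F4 x (p - g - 1) (p + m + g + 1)

/-- The two gates. -/
def gts (x : V) (p m g : ℕ) : Set (V → Bool) :=
  Ev fun c => Gate c x (2 ^ (p - g - 1)) (2 ^ (p - 1)) ∧
    Gate c x (2 ^ (p + m + 1)) (2 ^ (p + m + g + 1))

/-- The good event: gates and conditional probability at least `θ` of four arms through the scale,
given the coins outside the gap. -/
def gdE (θ : ℝ) (x : V) (p m g : ℕ) : Set (V → Bool) :=
  {b | b ∈ gts x p m g ∧ θ ≤ Pr {b' | mx (Ag x p m) b b' ∈ thr x p m g}}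

/-- The weight. -/
noncomputable def wgt (θ : ℝ) (x : V) (p m g : ℕ) : (V → Bool) → ℝ :=
  (gdE θ x p m g).indicator fun _ => θ

/-- Locality: `gdE` depends on the colours in the annulus between the radii of the block, and does not
depend on the coins in the gap `Ag x p m`; neither `gdE` nor `thr` depends on the coins in a gap
`Ag x p' m` of another block (`p' + m + g + 2 ≤ p - g - 1` or conversely) or on the coins at distance
at most `2 ^ (p - g - 2)`. (A coin at `v` colours `{v, v + (1, 0)}` if `v` is even and nothing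
otherwise.) -/
def UJ13_stmt : Prop :=
  ∀ (θ : ℝ) (x : V) (p m g : ℕ), g + 4 ≤ p → 1 ≤ m →
    Loc (gdE θ x p m g) (ann x (2 ^ (p - g - 1)) (2 ^ (p + m + g + 1))) ∧
    Loc (thr x p m g) (ann x (2 ^ (p - g - 1)) (2 ^ (p + m + g + 1))) ∧
    (∀ b b' : V → Bool, (∀ v, v ∉ Ag x p m → b v = b' v) →
      (b ∈ gdE θ x p m g ↔ b' ∈ gdE θ x p m g)) ∧
    ∀ b b' : V → Bool, (∀ v, (2 ^ (p - g - 2) < sd x v ∧ sd x v < 2 ^ (p + m + g + 2)) →
      b v = b' v) →
        (b ∈ gdE θ x p m g ↔ b' ∈ gdE θ x p m g) ∧ (b ∈ thr x p m g ↔ b' ∈ thr x p m g)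

/-- The two hypotheses of the product rule for `f = pmf (Fc i)` and
`g b = f b - f (mx U b b'')`, `U = {v | sd x v ≤ 2 ^ t}`. First: if there are no four arms through the
scale then `b ∈ Fc i ↔ mx U b b'' ∈ Fc i` (`UJ11`). Second: if `b₁ = b₂` outside the gap, both have four
arms through the scale and `b₁` has the gates, then `b₁ ∈ Fc i ↔ b₂ ∈ Fc i` and the same for
`mx U b₁ b''`, `mx U b₂ b''` (`UJ12`; the end points of the crossing are at distance at least
`2 ^ N` from `x`). -/
def UJ14_stmt : Prop :=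
  ∀ (i t p m g N : ℕ) (x : V) (b'' : V → Bool), t + 2 + g + 1 ≤ p → 1 ≤ g → 1 ≤ m →
    p + m + g + 1 ≤ N → box x (2 ^ N) ⊆ rect 1 (2 * 2 ^ i) 0 (hh (2 ^ i)) →
    (∀ b, b ∉ thr x p m g → pmf (Fc i) b - pmf (Fc i) (mx {v | sd x v ≤ 2 ^ t} b b'') = 0) ∧
    ∀ b₁ b₂ : V → Bool, (∀ v, v ∉ Ag x p m → b₁ v = b₂ v) → b₁ ∈ gts x p m g →
      b₁ ∈ thr x p m g → b₂ ∈ thr x p m g →
        pmf (Fc i) b₁ - pmf (Fc i) (mx {v | sd x v ≤ 2 ^ t} b₁ b'') =
          pmf (Fc i) b₂ - pmf (Fc i) (mx {v | sd x v ≤ 2 ^ t} b₂ b'')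

/-- If changing the coins in the small box changes `Fc i` there are four arms (`UI1`). -/
def UJ15_stmt : Prop :=
  ∀ (i t N : ℕ) (x : V) (b b'' : V → Bool), 1 ≤ t → t + 2 ≤ N →
    box x (2 ^ N) ⊆ rect 1 (2 * 2 ^ i) 0 (hh (2 ^ i)) →
    (pmf (Fc i) b - pmf (Fc i) (mx {v | sd x v ≤ 2 ^ t} b b'')) ^ 2 ≤
      4 * (F4 x (t + 1) N).indicator 1 b

/-! ## Lower bound of the weights -/

/-- Standard arms at both ends of the block with both gates. From `K.GSB_stmt` for the two gates
(`Gate` with `B4 x (p - g - 2) p` and `Gate` with `B4 x (p + m) (p + m + g + 2)`), `K.BTH_stmt` for the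
middle part `B4 x (p + 1) (p + m - 1)` (at least a constant times `F4 x (p + 2) (p + m - 2)`), glued by
`K.GB_stmt` twice (`i + 1 = p`, then `i + 1 = p + m - 1`; indicator weights), and
`Pr (F4 x lo hi) ≤ Pr (F4 x lo (p - 1)) * Pr (F4 x (p + 2) (p + m - 2)) * Pr (F4 x (p + m + 1) hi)`
by independence (`K.UPP_stmt`). All probabilities at `x` are those at `0` (`UI7`). -/
def UJ16_stmt : Prop :=
  ∃ (c : ℝ) (g k₀ : ℕ), 0 < c ∧ 1 ≤ g ∧ g + 4 ≤ k₀ ∧ ∀ (p m : ℕ) (x : V), k₀ ≤ p → k₀ ≤ m →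
    (x.1 + x.2) % 2 = 0 →
      c * a4 (p - g - 1) (p + m + g + 1) ≤
        Pr (gts x p m g ∩ B4 x (p - g - 2) (p + m + g + 2))

/-- The part with small conditional probability is small:
`Pr (gts ∩ thr ∩ {P(thr | coins outside the gap) < θ}) ≤ θ * Pr gts` (Fubini: `UJ5` for the indicator
functions, `gts` does not depend on the coins in the gap), and
`Pr gts ≤ Pr (four) * Pr (four)` (independence of the two annuli). -/
def UJ17_stmt : Prop :=
  ∀ (θ : ℝ) (p m g : ℕ) (x : V), 0 ≤ θ → g + 4 ≤ p → 1 ≤ m → (x.1 + x.2) % 2 = 0 →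
    Pr (gts x p m g ∩ thr x p m g ∩
      {b | Pr {b' | mx (Ag x p m) b b' ∈ thr x p m g} < θ}) ≤
        θ * (a4 (p - g - 1) (p - 1) * a4 (p + m + 1) (p + m + g + 1))

/-- Lower bound of the weight: with `θ = c' * a4 p (p + m)`, `c'` small. From `UJ16`, `UJ17`,
`B4 ⊆ thr` (`K.LQ_stmt`) and `UI8` (`a4 lo (p - 1) * a4 p (p + m) * a4 (p + m + 1) hi ≤ C a4 lo hi`, the
radii `p - 1 → p`, `p + m → p + m + 1` by `K.QAA_stmt` or the `r`-parts of `UI8`). -/
def UJ18_stmt : Prop :=
  ∃ (c : ℝ) (g k₀ : ℕ), 0 < c ∧ c ≤ 1 / 2 ∧ 1 ≤ g ∧ g + 4 ≤ k₀ ∧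
    ∀ (p m : ℕ) (x : V), k₀ ≤ p → k₀ ≤ m → (x.1 + x.2) % 2 = 0 →
      c * Pr (F4 x (p - g - 1) (p + m + g + 1)) ≤
        Pr (gdE (c * a4 p (p + m)) x p m g ∩ B4 x (p - g - 2) (p + m + g + 2))

/-- The chain lemma for these weights: from `UJ18`, `K.CHE_stmt` with
`w j = wgt (c * a4 (p j) (p j + m)) x (p j) m g`, `lo j = p j - g - 1`, `hi j = p j + m + g + 1`,
`a j = c ^ 2 * a4 (p j) (p j + m)` and `K.WB_stmt` (integral of an indicator weight), `UI7`. -/
def UJ19_stmt : Prop :=
  ∃ (c c' : ℝ) (g k₀ : ℕ), 0 < c ∧ c ≤ 1 / 2 ∧ 0 < c' ∧ 1 ≤ g ∧ 2 * g + 12 ≤ k₀ ∧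
    ∀ (t m J N : ℕ) (p : ℕ → ℕ) (x : V), k₀ ≤ t → k₀ ≤ m → t + k₀ ≤ p 0 →
    (∀ j, p j + m + k₀ ≤ p (j + 1)) → p J ≤ N → (x.1 + x.2) % 2 = 0 →
      ∫ b, (F4 x t N).indicator 1 b * ∏ j ∈ Finset.range J,
          (1 - wgt (c * a4 (p j) (p j + m)) x (p j) m g b) ∂P1 ≤
        Real.exp (-(c' * ∑ j ∈ Finset.range J, a4 (p j) (p j + m))) * a4 t N

/-- The spectral side of case (i): assembly. `PS i (...)` is `UJ3` with `W = ∅`,
`U j = Ag x (p j) m` for `j < J` and `U J = {v | sd x v ≤ 2 ^ t}` (`dls U (J + 1) = dls A J ∘ dl (U J)`,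
`av ∅ g = g`), `UJ4`, `UJ8`, `UJ7` with `d j = thr x (p j) m g`, `w j` as in `UJ19` (`UJ13`, `UJ14`),
`UJ15` and `UJ19` with `t + 1` in place of `t`, and `a4 (t + 1) N ≤ C a4 t N` (`UI8`). `N = i - k`. -/
def UJ20_stmt : Prop := U2i_stmt

end TP
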