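import Pool.Agent.helper33.SP.SpecC1

/-!
# SP, UI5: locality of `four` and `six`
-/

namespace TP

open DP MeasureTheory

theorem UI5_four {c c' : V → Bool} {x : V} {m n : ℕ} (h : ∀ v ∈ ann x m n, c v = c' v) :
    four c x m n ↔ four c' x m n := by
  unfold four twoCl
  simp only [Conn.congr h]

theorem UI5_inX {c c' : V → Bool} {x : V} {m n : ℕ} {p : V} (h : ∀ v ∈ ann x m n, c v = c' v)
    (hp : c p = false) (hi : inX c x m n p) : c' p = false ∧ inX c' x m n p := by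
  obtain ⟨hpb, u, hu, huc⟩ := hi
  have hpa : p ∈ ann x m n := huc.1.1
  have e : c' p = c p := (h p hpa).symm
  refine ⟨by rw [e, hp], hpb, u, hu, ?_⟩
  rw [e]
  exact (Conn.congr h).1 huc

theorem UI5_six1 {c c' : V → Bool} {x : V} {m n : ℕ} (h : ∀ v ∈ ann x m n, c v = c' v)
    (hc : six c x m n) : six c' x m n := by
  obtain ⟨p, q, hp, hq, hip, hiq, hs⟩ := hc
  obtain ⟨hp', hip'⟩ := UI5_inX h hp hip
  obtain ⟨hq', hiq'⟩ := UI5_inX h hq hiq
  refine ⟨p, q, hp', hq', hip', hiq', fun v hv hcon => hs v hv ?_⟩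
  refine (Conn.congr ?_).1 hcon
  intro w hw
  unfold rc
  rw [h w hw]

theorem UI5_six {c c' : V → Bool} {x : V} {m n : ℕ} (h : ∀ v ∈ ann x m n, c v = c' v) :
    six c x m n ↔ six c' x m n :=
  ⟨UI5_six1 h, UI5_six1 fun v hv => (h v hv).symm⟩

theorem UI5 : UI5_stmt := by
  intro x m n
  exact ⟨Loc.ev (ann_finite x m n) fun _ _ h => UI5_four h,
    Loc.ev (ann_finite x m n) fun _ _ h => UI5_six h⟩

end TP
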