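import Pool.Agent.helper33.SP.SpecC1

/-!
# Project sp, module UI9: the pivotal side of case (i)
-/

namespace TP

open DP MeasureTheory

theorem UI9_Pr_nonneg (F : Set (V → Bool)) : 0 ≤ Pr F := measureReal_nonneg

theorem UI9_P1 : IsProbabilityMeasure P1 := by
  unfold P1; infer_instance

theorem UI9_Pr_mono {F G : Set (V → Bool)} (h : F ⊆ G) : Pr F ≤ Pr G :=
  haveI := UI9_P1
  measureReal_mono h

theorem UI9_gap (x : V) (r m' m n n' N : ℕ) : gapE x r m' m n n' N =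
    Ev (fun c => four c x r m') ∩ (Ev (fun c => six c x m n) ∩ Ev (fun c => four c x n' N)) := rfl

theorem UI9 (hS : SIXU_stmt) (h4 : UI4_stmt) (h5 : UI5_stmt) (h6 : UI6_stmt) (h7 : UI7_stmt) (h8 : UI8_stmt)
    (hfl : Bflip_stmt) (hAM : AM_stmt) : U1i_stmt := by
  obtain ⟨C, k1, hC, q1, -, q3, -, q5⟩ := h8
  obtain ⟨C', k2, hC', hsix⟩ := hS
  refine ⟨2 * (C' + 1) * C ^ 4, max (max k1 4) (k2 + 2), by positivity, ?_⟩
  intro i k t p m x ht htp hm hpm hx hB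
  have ht1 : k1 ≤ t := by omega
  have hk4 : 4 ≤ max (max k1 4) (k2 + 2) := by omega
  have hs6 : Pr (Ev fun c => six c 0 (2 ^ (p + 1)) (2 ^ (p + m - 1))) ≤
      (C' + 1) * a6 (p + 1) (p + m - 1) := by
    refine (hsix (p + 1) (p + m - 1) (by omega) (by omega)).trans ?_
    have : 0 ≤ a6 (p + 1) (p + m - 1) := UI9_Pr_nonneg _
    nlinarith
  have ht4 : 4 ≤ t := hk4.trans ht
  have hp : t + 4 ≤ p := by omega
  have hm4 : 4 ≤ m := by omega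
  have hik : p + m + 4 ≤ i - k := by omega
  have hEven : Even (x.1 + x.2) := Int.even_iff.2 hx
  -- sizes
  have e1 : (2 : ℕ) ^ (t + 1) + 2 < 2 ^ p := by
    have h1 : (2 : ℕ) ^ (t + 4) ≤ 2 ^ p := Nat.pow_le_pow_right (by norm_num) hp
    have h2 : (1 : ℕ) ≤ 2 ^ t := Nat.one_le_two_pow
    rw [pow_succ, pow_add] at *
    omega
  have e1' : (2 : ℕ) ^ (t + 1) + 2 ≤ 2 ^ (t + 2) := by
    have h2 : (2 : ℕ) ^ 1 ≤ 2 ^ t := Nat.pow_le_pow_right (by norm_num) (by omega)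
    rw [pow_succ, pow_add] at *
    omega
  have e2 : (2 : ℕ) ^ p + 2 ≤ 2 ^ (p + 1) := by
    have h2 : (2 : ℕ) ^ 1 ≤ 2 ^ p := Nat.pow_le_pow_right (by norm_num) (by omega)
    rw [pow_succ] at *
    omega
  have e3 : (2 : ℕ) ^ (p + 1) < 2 ^ (p + m - 1) := Nat.pow_lt_pow_right (by norm_num) (by omega)
  have e4 : (2 : ℕ) ^ (p + m - 1) + 2 ≤ 2 ^ (p + m) := by
    have h1 : (2 : ℕ) ^ (p + m) = 2 ^ (p + m - 1) * 2 := by
      rw [← pow_succ]; congr 1; omega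
    have h2 : (2 : ℕ) ^ 1 ≤ 2 ^ (p + m - 1) := Nat.pow_le_pow_right (by norm_num) (by omega)
    omega
  have e5 : (2 : ℕ) ^ (p + m) < 2 ^ (i - k) := Nat.pow_lt_pow_right (by norm_num) (by omega)
  have e6 : (2 : ℕ) ^ (t + 2) ≤ 2 ^ p := Nat.pow_le_pow_right (by norm_num) (by omega)
  set G : Set (V → Bool) := gapE x (2 ^ (t + 1) + 2) (2 ^ p) (2 ^ (p + 1)) (2 ^ (p + m - 1))
    (2 ^ (p + m)) (2 ^ (i - k)) with hG
  have hLoc : Loc G Set.univ := by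
    rw [hG, UI9_gap]
    exact ((h5 x _ _).1.inter ((h5 x _ _).2.inter (h5 x _ _).1)).mono (Set.subset_univ _)
  have hflip : Pr {b : V → Bool | (fun v => !(b v)) ∈ G} = Pr G := hfl (Equiv.refl V) G _ hLoc
  have hsub : {b : V → Bool | (∃ v ∈ PV i b, sd x v ≤ 2 ^ (t + 1)) ∧
      ∀ v ∈ PV i b, ¬ (2 ^ (p + 1) ≤ sd x v + 1 ∧ sd x v ≤ 2 ^ (p + m - 1) + 1)} ⊆
      G ∪ {b : V → Bool | (fun v => !(b v)) ∈ G} := by
    rintro b ⟨hb1, hb2⟩
    exact h4 i b x (2 ^ (t + 1)) (2 ^ p) (2 ^ (p + 1)) (2 ^ (p + m - 1)) (2 ^ (p + m)) (2 ^ (i - k))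
      hEven e1 e2 e3 e4 e5 hB hb1 hb2
  have hPr : PPv i (fun X => (∃ v ∈ X, sd x v ≤ 2 ^ (t + 1)) ∧
        ∀ v ∈ X, ¬ (2 ^ (p + 1) ≤ sd x v + 1 ∧ sd x v ≤ 2 ^ (p + m - 1) + 1)) ≤ 2 * Pr G := by
    unfold PPv
    calc _ ≤ Pr (G ∪ {b : V → Bool | (fun v => !(b v)) ∈ G}) := UI9_Pr_mono hsub
      _ ≤ Pr G + Pr {b : V → Bool | (fun v => !(b v)) ∈ G} := measureReal_union_le _ _
      _ = 2 * Pr G := by rw [hflip]; ring
  have hfac : Pr G = Pr (Ev fun c => four c x (2 ^ (t + 1) + 2) (2 ^ p)) *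
      Pr (Ev fun c => six c 0 (2 ^ (p + 1)) (2 ^ (p + m - 1))) * a4 (p + m) (i - k) := by
    rw [hG, h6 x _ _ _ _ _ _ e2 e3.le e4, (h7.2 x (2 ^ (p + 1)) (2 ^ (p + m - 1)) hx).2,
      (h7.2 x (2 ^ (p + m)) (2 ^ (i - k)) hx).1]
    rfl
  have hfirst : Pr (Ev fun c => four c x (2 ^ (t + 1) + 2) (2 ^ p)) ≤ a4 (t + 2) p := by
    have h : a4 (t + 2) p = Pr (Ev fun c => four c x (2 ^ (t + 2)) (2 ^ p)) :=
      (h7.2 x (2 ^ (t + 2)) (2 ^ p) hx).1.symm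
    rw [h]
    apply UI9_Pr_mono
    intro b hb
    have := hAM (col b) 4 x (2 ^ (t + 1) + 2) (2 ^ (t + 2)) (2 ^ p) (2 ^ p) (Or.inr rfl) e1' e6 le_rfl
    simp only [ar, if_true] at this
    exact this hb
  have hnn : ∀ a b, 0 ≤ a4 a b := fun a b => UI9_Pr_nonneg _
  have hnn6 : ∀ a b, 0 ≤ a6 a b := fun a b => UI9_Pr_nonneg _
  have s1 : a4 (t + 2) p ≤ C ^ 2 * a4 t p := by
    have := q3 t (p - 2) 2 ht1 (by omega)
    rwa [show p - 2 + 2 = p by omega] at this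
  have s2 : a4 t p * a4 p (p + m) ≤ C * a4 t (p + m) := q1 t p (p + m) ht1 (by omega) (by omega)
  have s3 : a4 t (p + m) * a4 (p + m) (i - k) ≤ C * a4 t (i - k) :=
    q1 t (p + m) (i - k) ht1 (by omega) (by omega)
  have hpos : 0 < a4 p (p + m) := q5 p (p + m) (by omega) (by omega)
  have hkey : a4 (t + 2) p * a4 (p + m) (i - k) * a4 p (p + m) ≤ C ^ 4 * a4 t (i - k) := by
    calc a4 (t + 2) p * a4 (p + m) (i - k) * a4 p (p + m)
        ≤ (C ^ 2 * a4 t p) * a4 (p + m) (i - k) * a4 p (p + m) := by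
          have := hnn (p + m) (i - k)
          have := hnn p (p + m)
          gcongr
      _ = C ^ 2 * ((a4 t p * a4 p (p + m)) * a4 (p + m) (i - k)) := by ring
      _ ≤ C ^ 2 * ((C * a4 t (p + m)) * a4 (p + m) (i - k)) := by
          have := hnn (p + m) (i - k)
          gcongr
      _ = C ^ 3 * (a4 t (p + m) * a4 (p + m) (i - k)) := by ring
      _ ≤ C ^ 3 * (C * a4 t (i - k)) := by gcongr
      _ = C ^ 4 * a4 t (i - k) := by ring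
  have hkey2 : a4 (t + 2) p * a4 (p + m) (i - k) ≤ C ^ 4 * a4 t (i - k) / a4 p (p + m) := by
    rw [le_div_iff₀ hpos]
    exact hkey
  calc _ ≤ 2 * Pr G := hPr
    _ = 2 * (Pr (Ev fun c => four c x (2 ^ (t + 1) + 2) (2 ^ p)) *
      Pr (Ev fun c => six c 0 (2 ^ (p + 1)) (2 ^ (p + m - 1))) * a4 (p + m) (i - k)) := by rw [hfac]
    _ ≤ 2 * (a4 (t + 2) p * ((C' + 1) * a6 (p + 1) (p + m - 1)) * a4 (p + m) (i - k)) := by
        have := hnn (p + m) (i - k)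
        have := hnn6 (p + 1) (p + m - 1)
        have := hnn (t + 2) p
        have h0 : 0 ≤ Pr (Ev fun c => six c 0 (2 ^ (p + 1)) (2 ^ (p + m - 1))) := UI9_Pr_nonneg _
        gcongr
    _ = 2 * ((C' + 1) * a6 (p + 1) (p + m - 1)) * (a4 (t + 2) p * a4 (p + m) (i - k)) := by ring
    _ ≤ 2 * ((C' + 1) * a6 (p + 1) (p + m - 1)) * (C ^ 4 * a4 t (i - k) / a4 p (p + m)) := by
        have := hnn6 (p + 1) (p + m - 1)
        gcongr
    _ = 2 * (C' + 1) * C ^ 4 * (a6 (p + 1) (p + m - 1) / a4 p (p + m)) * a4 t (i - k) := by ring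

end TP
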