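import Pool.Agent.helper98.SP.VA1
import Pool.Agent.helper52.SP.UJ5

/-!
# Project sp, module UJ2: orthonormality and averages of characters
-/

namespace TP

open DP MeasureTheory

theorem UJ2_P1 : IsProbabilityMeasure P1 := by
  unfold P1; infer_instance

theorem UJ2_sg (k : Bool) : sg (!k) = -sg k := by cases k <;> simp [sg]

theorem UJ2_sq (k : Bool) : sg k * sg k = 1 := by cases k <;> simp [sg]

theorem UJ2_fin (T : Finset V) : FinR (chr T) := by
  refine ⟨T, fun b b' h => ?_⟩
  unfold chr
  exact Finset.prod_congr rfl fun v hv => by rw [h v hv]

/-- A nonconstant character has mean zero; also with some coins frozen. -/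
theorem UJ2_zero (W : Set V) (T : Finset V) (b : V → Bool) {v : V} (hv : v ∈ T) (hW : v ∈ W) :
    av W (chr T) b = 0 := by
  classical
  unfold av
  have h1 := VA1_integral {v} (fun b' => chr T (mx W b b'))
  have h2 : (fun b' => chr T (mx W b (flp {v} b'))) = fun b' => -(chr T (mx W b b')) := by
    funext b'
    unfold chr
    rw [← Finset.mul_prod_erase T _ hv, ← Finset.mul_prod_erase T (fun u => sg (mx W b b' u)) hv]
    have e1 : mx W b (flp {v} b') v = !(mx W b b' v) := by
      unfold mx flp
      rw [if_pos hW, if_pos hW, if_pos (Set.mem_singleton v)]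
    have e2 : ∏ u ∈ T.erase v, sg (mx W b (flp {v} b') u) = ∏ u ∈ T.erase v, sg (mx W b b' u) := by
      refine Finset.prod_congr rfl fun u hu => ?_
      have hne : u ≠ v := Finset.ne_of_mem_erase hu
      have : flp {v} b' u = b' u := by
        unfold flp
        rw [if_neg (by simpa using hne)]
      unfold mx
      rw [this]
    rw [e1, e2, UJ2_sg]
    ring
  rw [h2, integral_neg] at h1
  linarith

theorem UJ2_one (W : Set V) (T : Finset V) (b : V → Bool) (h : ∀ v ∈ T, v ∉ W) :
    av W (chr T) b = chr T b := by
  have := UJ2_P1
  unfold av
  have h2 : (fun b' => chr T (mx W b b')) = fun _ => chr T b := by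
    funext b'
    unfold chr
    exact Finset.prod_congr rfl fun v hv => by rw [UJ5_mx_out (h v hv)]
  rw [h2]
  simp

theorem UJ2_av (W : Set V) (T : Finset V) (b : V → Bool) [Decidable (∀ v ∈ T, v ∉ W)] :
    av W (chr T) b = if ∀ v ∈ T, v ∉ W then chr T b else 0 := by
  split_ifs with h
  · exact UJ2_one W T b h
  · push Not at h
    obtain ⟨v, hv, hW⟩ := h
    exact UJ2_zero W T b hv hW

theorem UJ2 : UJ2_stmt := by
  classical
  have := UJ2_P1
  refine ⟨?_, ?_, ?_, ?_⟩
  · intro T T'
    split_ifs with h
    · subst h
      have h2 : (fun b => chr T b * chr T b) = fun _ => (1 : ℝ) := by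
        funext b
        unfold chr
        rw [← Finset.prod_mul_distrib]
        exact Finset.prod_eq_one fun v _ => UJ2_sq _
      rw [h2]
      simp
    · obtain ⟨v, hv⟩ : ∃ v, v ∈ symmDiff T T' := by
        by_contra hc
        push Not at hc
        apply h
        ext v
        have := hc v
        rw [Finset.mem_symmDiff] at this
        tauto
      have h1 := VA1_integral {v} (fun b => chr T b * chr T' b)
      have key : ∀ (S : Finset V) (b : V → Bool),
          chr S (flp {v} b) = if v ∈ S then -chr S b else chr S b := by
        intro S b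
        split_ifs with hS
        · unfold chr
          rw [← Finset.mul_prod_erase S _ hS, ← Finset.mul_prod_erase S (fun u => sg (b u)) hS]
          have e1 : flp {v} b v = !(b v) := by
            unfold flp
            rw [if_pos (Set.mem_singleton v)]
          have e2 : ∏ u ∈ S.erase v, sg (flp {v} b u) = ∏ u ∈ S.erase v, sg (b u) := by
            refine Finset.prod_congr rfl fun u hu => ?_
            have hne : u ≠ v := Finset.ne_of_mem_erase hu
            unfold flp
            rw [if_neg (by simpa using hne)]
          rw [e1, e2, UJ2_sg]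
          ring
        · unfold chr
          refine Finset.prod_congr rfl fun u hu => ?_
          have hne : u ≠ v := fun h => hS (h ▸ hu)
          unfold flp
          rw [if_neg (by simpa using hne)]
      have h2 : (fun b => chr T (flp {v} b) * chr T' (flp {v} b)) =
          fun b => -(chr T b * chr T' b) := by
        funext b
        rw [key T b, key T' b]
        rw [Finset.mem_symmDiff] at hv
        rcases hv with ⟨h3, h4⟩ | ⟨h3, h4⟩
        · rw [if_pos h3, if_neg h4]; ring
        · rw [if_neg h4, if_pos h3]; ring
      rw [h2, integral_neg] at h1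
      linarith
  · intro W T b
    exact UJ2_av W T b
  · intro W T b
    unfold dl
    split_ifs with h
    · obtain ⟨v, hv, hW⟩ := h
      rw [UJ2_zero W T b hv hW, sub_zero]
    · push Not at h
      rw [UJ2_one W T b h, sub_self]
  · intro W s a b
    unfold av
    rw [integral_finsetSum]
    · refine Finset.sum_congr rfl fun T _ => ?_
      rw [integral_const_mul]
    · intro T _
      exact (UJ5_int (UJ2_fin T) W b).const_mul _

end TP
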