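import Pool.Agent.helper46.SP.VA11
import Pool.Agent.helper32.SP.UJ17

/-!
# Project sp, module VA13: the square integral
-/

namespace TP

open DP MeasureTheory

theorem VA13_br (x v : V) : sd x (br v) ≤ sd x v + 1 ∧ sd x v ≤ sd x (br v) + 1 := by
  unfold br sd
  split_ifs with h
  · omega
  · simp only
    omega

theorem VA13_P1 : IsProbabilityMeasure P1 := by
  unfold P1; infer_instance

/-- Sizes of the geometry. -/
theorem VA13_sz {p m s : ℕ} (hm : 13 ≤ m) (hs : 4 ≤ s) :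
    2 ^ (p + 2) = 4 * 2 ^ p ∧ 2 ^ (p + 3) = 8 * 2 ^ p ∧ 2 ^ (p + 1) = 2 * 2 ^ p ∧
      8192 * 2 ^ p ≤ 2 ^ (p + m) ∧ 16 * 2 ^ (p + m) ≤ 2 ^ (p + m + s) ∧
      256 * 2 ^ (p + m + s) ≤ 2 ^ (p + m + 3 * s) ∧
      1024 * 2 ^ (p + m + 3 * s) ≤ 2 ^ (p + m + 3 * s + m - 3) ∧
      2 ^ (p + m + 3 * s + m - 2) = 2 * 2 ^ (p + m + 3 * s + m - 3) ∧
      2 ^ (p + m + 3 * s + m - 1) = 4 * 2 ^ (p + m + 3 * s + m - 3) ∧ 1 ≤ 2 ^ p := by
  have e : ∀ a b : ℕ, 2 ^ (a + b) = 2 ^ b * 2 ^ a := fun a b => by rw [pow_add]; ring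
  have l : ∀ {a b : ℕ} (k : ℕ), a + k ≤ b → 2 ^ k * 2 ^ a ≤ 2 ^ b := by
    intro a b k h
    rw [← e]
    exact Nat.pow_le_pow_right (by norm_num) h
  refine ⟨by rw [e]; norm_num, by rw [e]; norm_num, by rw [e]; norm_num, ?_, ?_, ?_, ?_, ?_, ?_,
    Nat.one_le_two_pow⟩
  · exact (l 13 (by omega))
  · exact (l 4 (by omega))
  · exact (l 8 (by omega))
  · exact (l 10 (by omega))
  · rw [show p + m + 3 * s + m - 2 = (p + m + 3 * s + m - 3) + 1 by omega, e]; norm_num
  · rw [show p + m + 3 * s + m - 1 = (p + m + 3 * s + m - 3) + 2 by omega, e]; norm_num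

/-- The distance of the two centres. -/
theorem VA13_d {i N t p m s g h J : ℕ} {x y : V} (hG : Geo i N t p m s g h J x y) :
    sd x y = 2 ^ (p + m + s) := by
  rcases hG.y_eq with rfl | rfl <;> unfold sd <;> simp

theorem VA13_even {i N t p m s g h J : ℕ} {x y : V} (hG : Geo i N t p m s g h J x y) :
    (y.1 + y.2) % 2 = 0 := by
  have hx := hG.even
  have hs := hG.hs
  have h2 : ((2 : ℤ) ^ (p + m + s)) % 2 = 0 := by
    obtain ⟨k, hk⟩ : ∃ k, p + m + s = k + 1 := ⟨p + m + s - 1, by omega⟩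
    rw [hk, pow_succ]
    omega
  rcases hG.y_eq with rfl | rfl
  · show (x.1 + 2 ^ (p + m + s) + x.2) % 2 = 0
    omega
  · show (x.1 + (x.2 + 2 ^ (p + m + s))) % 2 = 0
    omega

/-- The event `F4` depends only on the coins near the annulus. -/
theorem VA13_F4 (hLQ : K.LQ_stmt) {x : V} {a b : ℕ} {B : Set V}
    (hB : ∀ v ∈ ann x (2 ^ a) (2 ^ b), br v ∈ B) {c c' : V → Bool} (h : ∀ v ∈ B, c v = c' v) :
    c ∈ F4 x a b ↔ c' ∈ F4 x a b := by
  obtain ⟨Λ, hΛ, hd⟩ := hLQ.1 x a b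
  exact hd c c' fun v hv => h _ (hB v (hΛ hv))

theorem VA13_EW (hLQ : K.LQ_stmt) {i N t p m s g h J : ℕ} {x y : V}
    (hG : Geo i N t p m s g h J x y) {b b' : V → Bool} (hb : ∀ v ∈ Wc x y p m s, b v = b' v) :
    b ∈ EW x y p m s ↔ b' ∈ EW x y p m s := by
  have hm : 13 ≤ m := le_trans (Nat.le_add_left _ _) hG.hJ
  obtain ⟨e1, e2, e3, e4, e5, e6, e7, e8, e9, e10⟩ := VA13_sz (p := p) hm hG.hs
  have hd := VA13_d hG
  unfold EW
  refine and_congr (VA13_F4 hLQ ?_ hb) (and_congr (VA13_F4 hLQ ?_ hb) (VA13_F4 hLQ ?_ hb)) <;>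
    rintro v ⟨h1, h2⟩ <;>
    · have h3 := VA13_br x v
      have h4 := VA13_br y v
      have h5 := sd_triangle x v y
      have h6 := sd_triangle y v x
      have h7 := sd_triangle x y v
      rw [sd_comm v y] at h5
      rw [sd_comm v x, sd_comm y x] at h6
      show sd x (br v) ≤ _ ∧ _ ≤ sd x (br v) ∧ _ ≤ sd y (br v)
      omega

theorem VA13_EO (hLQ : K.LQ_stmt) {i N t p m s g h J : ℕ} {x y : V}
    (hG : Geo i N t p m s g h J x y) {b b' : V → Bool}
    (hb : ∀ v, v ∉ Wc x y p m s → b v = b' v) :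
    b ∈ EO x N t p m s ↔ b' ∈ EO x N t p m s := by
  have hm : 13 ≤ m := le_trans (Nat.le_add_left _ _) hG.hJ
  obtain ⟨e1, e2, e3, e4, e5, e6, e7, e8, e9, e10⟩ := VA13_sz (p := p) hm hG.hs
  unfold EO
  refine and_congr (VA13_F4 hLQ (B := (Wc x y p m s)ᶜ) ?_ hb)
    (VA13_F4 hLQ (B := (Wc x y p m s)ᶜ) ?_ hb)
  · rintro v ⟨h1, h2⟩ ⟨h3, h4, -⟩
    have h5 := VA13_br x v
    omega
  · rintro v ⟨h1, h2⟩ ⟨h3, h4, -⟩
    have h5 := VA13_br x v
    omega

theorem VA13_Q3fin (hv5 : VA5_stmt) {i N t p m s g h J : ℕ} {x y : V}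
    (hG : Geo i N t p m s g h J x y) : FinR (Q3 x y g h (p + 3) (p + m + 3 * s) J) := by
  have hwf : ∀ z : V, (z.1 + z.2) % 2 = 0 → ∀ P l, FinR (wf z g h P l) := by
    intro z hz P l
    exact (hv5 z (zx g h P l) h g hz (by unfold zx; omega) hG.hg hG.hh).2.2.2.2.2
  have hNf : ∀ z : V, (z.1 + z.2) % 2 = 0 → ∀ P, FinR (Nf z g h P J) := fun z hz P =>
    VA11_finprod _ (fun l b => 1 - wf z g h P l b) fun l _ =>
      VA11_op (fun u v => u - v) (VA11_const 1) (hwf z hz P l)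
  have h1 : ∀ z : V, (z.1 + z.2) % 2 = 0 → ∀ P, FinR fun b => 1 - Nf z g h P J b :=
    fun z hz P => VA11_op (fun u v => u - v) (VA11_const 1) (hNf z hz P)
  exact VA11_op (fun u v => u - v) (VA11_const 1)
    (VA11_op (fun u v => u * v)
      (VA11_op (fun u v => u * v) (h1 x hG.even (p + 3)) (h1 y (VA13_even hG) (p + 3)))
      (h1 x hG.even (p + m + 3 * s)))

/-- The weights depend only on the coins in the averaged region. -/
theorem VA13_Q3dep (hv7 : VA7_stmt) (hv9 : VA9_stmt) {i N t p m s g h J : ℕ} {x y : V}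
    (hG : Geo i N t p m s g h J x y) {b b' : V → Bool} (hb : ∀ v ∈ Wc x y p m s, b v = b' v) :
    Q3 x y g h (p + 3) (p + m + 3 * s) J b = Q3 x y g h (p + 3) (p + m + 3 * s) J b' := by
  obtain ⟨k1, -⟩ := hv9 i N t p m s g h J x y hG _ rfl
  have hw : ∀ (z : V) (P j : ℕ), (z.1 + z.2) % 2 = 0 →
      {v | 2 ^ (zx g h P j - g - 2) < sd z v ∧ sd z v < 2 ^ (zx g h P j + h + g + 2)} ⊆
        Wc x y p m s → wf z g h P j b = wf z g h P j b' := by
    intro z P j hz hs
    exact ((hv7 z (zx g h P j) h g hz (by unfold zx; omega) hG.hg hG.hh).2.2.1 b b'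
      fun v h1 h2 => hb v (hs ⟨h1, h2⟩)).1
  have hN : ∀ (z : V) (P : ℕ), (∀ j < J, wf z g h P j b = wf z g h P j b') →
      Nf z g h P J b = Nf z g h P J b' := by
    intro z P h1
    unfold Nf
    refine Finset.prod_congr rfl fun l hl => ?_
    rw [h1 l (Finset.mem_range.1 hl)]
  unfold Q3
  rw [hN x (p + 3) fun j hj => hw x _ j hG.even (k1 j hj).1,
    hN y (p + 3) fun j hj => hw y _ j (VA13_even hG) (k1 j hj).2.1,
    hN x (p + m + 3 * s) fun j hj => hw x _ j hG.even (k1 j hj).2.2]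

theorem VA13 (h4 : UJ4_stmt) (h5 : UJ5_stmt) (hv5 : VA5_stmt) (hv7 : VA7_stmt)
    (hv9 : VA9_stmt) (hv11 : VA11_stmt) (hv12 : VA12_stmt) (hLQ : K.LQ_stmt) : VA13_stmt := by
  intro i N t p m s g h J x y hG
  have := VA13_P1
  set W := Wc x y p m s with hW
  set Q := Q3 x y g h (p + 3) (p + m + 3 * s) J with hQ
  set E := EW x y p m s with hE
  set O := EO x N t p m s with hO
  have hf : FinR (pmf (Fc i)) := by
    refine ⟨VV i, fun b b' hbb => ?_⟩
    have hiff := (h4 i).1 b b' hbb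
    unfold pmf Set.indicator
    by_cases hb : b ∈ Fc i
    · rw [if_pos hb, if_pos (hiff.1 hb)]
      rfl
    · rw [if_neg hb, if_neg fun hb' => hb (hiff.2 hb')]
  have hQf : FinR Q := VA13_Q3fin hv5 hG
  have hLocE : Loc E Set.univ := by
    have h1 := (hLQ.1 x (p + 3) (p + m)).mono (Set.subset_univ _)
    have h2 := (hLQ.1 y (p + 3) (p + m)).mono (Set.subset_univ _)
    have h3 := (hLQ.1 x (p + m + 3 * s) (p + m + 3 * s + m - 3)).mono (Set.subset_univ _)
    exact (h1.inter (h2.inter h3)).mono (Set.subset_univ _)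
  have hLocO : Loc O Set.univ := by
    have h1 := (hLQ.1 x (t + 1) (p + 1)).mono (Set.subset_univ _)
    have h2 := (hLQ.1 x (p + m + 3 * s + m - 1) N).mono (Set.subset_univ _)
    exact (h1.inter h2).mono (Set.subset_univ _)
  have hEf : FinR (E.indicator 1) := UJ17_fin hLocE
  have hOf : FinR (O.indicator 1) := UJ17_fin hLocO
  have hQE : FinR fun b => Q b * E.indicator 1 b := VA11_op (fun u v => u * v) hQf hEf
  set L := dl (U1c x t) (dl (U2c y p) (fun b => Q b * pmf (Fc i) b)) with hL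
  have hLf : FinR L :=
    (h5.1 _ _ (h5.1 _ _ (VA11_op (fun u v => u * v) hQf hf)).2.1).2.1
  have hH : FinR fun b => 4 * (O.indicator 1 b * (Q b * E.indicator 1 b)) :=
    VA11_op (fun u v => 4 * (u * v)) hOf hQE
  have hH' : FinR fun b => (-1) * (4 * (O.indicator 1 b * (Q b * E.indicator 1 b))) :=
    VA11_op (fun u v => (-1) * (4 * (u * v))) hOf hQE
  have hind : ∀ b : V → Bool, (E ∩ O).indicator (1 : (V → Bool) → ℝ) b =
      O.indicator 1 b * E.indicator 1 b := by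
    intro b
    by_cases h1 : b ∈ E <;> by_cases h2 : b ∈ O <;>
      simp [Set.indicator, h1, h2]
  have hb4 : ∀ b, |L b| ≤ 4 * (O.indicator 1 b * (Q b * E.indicator 1 b)) := by
    intro b
    have := hv12 i N t p m s g h J x y hG b
    rw [hind b] at this
    calc |L b| ≤ 4 * Q b * (O.indicator 1 b * E.indicator 1 b) := this
      _ = 4 * (O.indicator 1 b * (Q b * E.indicator 1 b)) := by ring
  -- the average of the bound
  have hEZ : ∀ b, av W (fun b => Q b * E.indicator 1 b) b = EZ Q E := by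
    intro b
    unfold av EZ
    have hmE : MeasurableSet E := hLocE.measurableSet
    rw [← integral_indicator hmE]
    congr 1
    funext b'
    have h1 : ∀ v ∈ W, mx W b b' v = b' v := fun v hv => by unfold mx; rw [if_pos hv]
    have h2 : Q (mx W b b') = Q b' := VA13_Q3dep hv7 hv9 hG h1
    have h3 : mx W b b' ∈ E ↔ b' ∈ E := VA13_EW hLQ hG h1
    show Q (mx W b b') * E.indicator 1 (mx W b b') = E.indicator Q b'
    rw [h2]
    by_cases h4 : b' ∈ E
    · rw [Set.indicator_of_mem h4, Set.indicator_of_mem (h3.2 h4)]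
      simp
    · rw [Set.indicator_of_notMem h4, Set.indicator_of_notMem fun h5 => h4 (h3.1 h5)]
      simp
  have hOdep : ∀ b b' : V → Bool, (∀ v, v ∉ W → b v = b' v) →
      O.indicator (1 : (V → Bool) → ℝ) b = O.indicator 1 b' := by
    intro b b' hb
    have h3 : b ∈ O ↔ b' ∈ O := VA13_EO hLQ hG hb
    by_cases h4 : b' ∈ O
    · rw [Set.indicator_of_mem h4, Set.indicator_of_mem (h3.2 h4)]
      simp
    · rw [Set.indicator_of_notMem h4, Set.indicator_of_notMem fun h5 => h4 (h3.1 h5)]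
  have hav : ∀ b, av W (fun b => 4 * (O.indicator 1 b * (Q b * E.indicator 1 b))) b =
      4 * (O.indicator 1 b * EZ Q E) := by
    intro b
    have h1 := (h5.2.2.1 W (fun b => O.indicator 1 b * (Q b * E.indicator 1 b))
      (fun b => O.indicator 1 b * (Q b * E.indicator 1 b))
      (VA11_op (fun u v => u * v) hOf hQE) (VA11_op (fun u v => u * v) hOf hQE)).2.1 4 b
    rw [h1, h5.2.2.2.1 W (fun b => Q b * E.indicator 1 b) (O.indicator 1) hQE hOf hOdep b, hEZ b]
  have hM : ∀ b, (av W (dl (U1c x t) (dl (U2c y p) (pmf (Fc i)))) b) ^ 2 ≤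
      16 * EZ Q E ^ 2 * O.indicator 1 b := by
    intro b
    rw [hv11 i N t p m s g h J x y hG b]
    have u1 : av W L b ≤ 4 * (O.indicator 1 b * EZ Q E) := by
      rw [← hav b]
      exact (h5.2.2.1 W L _ hLf hH).2.2 (fun b => (le_abs_self _).trans (hb4 b)) b
    have u2 : -(4 * (O.indicator 1 b * EZ Q E)) ≤ av W L b := by
      have h1 := (h5.2.2.1 W (fun b => (-1) * (4 * (O.indicator 1 b * (Q b * E.indicator 1 b)))) L
        hH' hLf).2.2 (fun b => by
          have := (neg_abs_le (L b))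
          have h2 := hb4 b
          linarith) b
      have h2 := (h5.2.2.1 W (fun b => 4 * (O.indicator 1 b * (Q b * E.indicator 1 b)))
        (fun b => 4 * (O.indicator 1 b * (Q b * E.indicator 1 b))) hH hH).2.1 (-1) b
      rw [h2, hav b] at h1
      linarith
    by_cases hb : b ∈ O
    · rw [Set.indicator_of_mem hb] at u1 u2 ⊢
      simp only [Pi.one_apply, one_mul, mul_one] at u1 u2 ⊢
      nlinarith
    · rw [Set.indicator_of_notMem hb] at u1 u2 ⊢
      simp only [zero_mul, mul_zero, neg_zero] at u1 u2 ⊢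
      have : av W L b = 0 := le_antisymm u1 u2
      rw [show av W (dl (U1c x t) (dl (U2c y p) (fun b => Q b * pmf (Fc i) b))) b = 0 from this]
      norm_num
  have hMf : FinR fun b => (av W (dl (U1c x t) (dl (U2c y p) (pmf (Fc i)))) b) ^ 2 := by
    have h1 := (h5.1 W _ (h5.1 (U1c x t) _ (h5.1 (U2c y p) _ hf).2.1).2.1).1
    exact VA11_op (fun u _ => u ^ 2) h1 h1
  have hOI : Integrable (O.indicator (1 : (V → Bool) → ℝ)) P1 := (h5.1 W _ hOf).2.2.1
  calc ∫ b, (av W (dl (U1c x t) (dl (U2c y p) (pmf (Fc i)))) b) ^ 2 ∂P1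
      ≤ ∫ b, 16 * EZ Q E ^ 2 * O.indicator 1 b ∂P1 :=
        integral_mono (h5.1 W _ hMf).2.2.1 (hOI.const_mul _) hM
    _ = 16 * EZ Q E ^ 2 * Pr O := by
        rw [integral_const_mul, integral_indicator_one hLocO.measurableSet]
        rfl

end TP
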