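import Pool.Agent.helper33.SP.SpecC2S

/-!
# Project sp, module VA21: products of `a4`
-/

namespace TP

open DP MeasureTheory

theorem VA21_P1 : IsProbabilityMeasure P1 := by
  unfold P1; infer_instance

theorem VA21_nn (p q : ℕ) : 0 ≤ a4 p q := measureReal_nonneg

theorem VA21_le (p q : ℕ) : a4 p q ≤ 1 :=
  haveI := VA21_P1
  measureReal_le_one

theorem VA21 (h8 : UI8_stmt) : VA21_stmt := by
  obtain ⟨C, k1, hC, q1, q2, q3, q4, q5⟩ := h8
  refine ⟨max k1 5, fun s => ⟨C ^ (26 + 3 * s), by positivity, ?_⟩⟩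
  intro N t p m ht htp hm hN
  have hk1 : k1 ≤ t := by omega
  have hC0 : 0 ≤ C := by linarith
  set A := a4 p (p + m) with hA
  set B := a4 (p + m + 3 * s) (p + m + 3 * s + m) with hB
  have hA0 : 0 ≤ A := VA21_nn _ _
  have hB0 : 0 ≤ B := VA21_nn _ _
  have e1 : a4 (p + 3) (p + m) ≤ C ^ 3 * A := by
    have := q3 p (p + m - 3) 3 (by omega) (by omega)
    rwa [show p + m - 3 + 3 = p + m by omega] at this
  have e2 : a4 (p + m + 3 * s) (p + m + 3 * s + m - 3) ≤ C ^ 3 * B := by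
    have := q4 (p + m + 3 * s) (p + m + 3 * s + m - 3) 3 (by omega) (by omega)
    rwa [show p + m + 3 * s + m - 3 + 3 = p + m + 3 * s + m by omega] at this
  have e3 : a4 (t + 1) (p + 1) ≤ C ^ 2 * a4 t p := by
    have h1 := q3 t p 1 hk1 (by omega)
    have h2 := q2 t p (p + 1) hk1 (by omega) (by omega)
    have h3 := VA21_le p (p + 1)
    have h4 := VA21_nn p (p + 1)
    have h5 := VA21_nn t p
    calc a4 (t + 1) (p + 1) ≤ C ^ 1 * a4 t (p + 1) := h1
      _ ≤ C ^ 1 * (C * (a4 t p * a4 p (p + 1))) := by gcongr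
      _ ≤ C ^ 1 * (C * (a4 t p * 1)) := by gcongr
      _ = C ^ 2 * a4 t p := by ring
  have e4 : a4 (p + m + 3 * s + m - 1) N ≤ C * a4 (p + m + 3 * s + m) N := by
    have h2 := q2 (p + m + 3 * s + m - 1) (p + m + 3 * s + m) N (by omega) (by omega) (by omega)
    have h3 := VA21_le (p + m + 3 * s + m - 1) (p + m + 3 * s + m)
    have h5 := VA21_nn (p + m + 3 * s + m) N
    calc a4 (p + m + 3 * s + m - 1) N
        ≤ C * (a4 (p + m + 3 * s + m - 1) (p + m + 3 * s + m) * a4 (p + m + 3 * s + m) N) := h2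
      _ ≤ C * (1 * a4 (p + m + 3 * s + m) N) := by gcongr
      _ = C * a4 (p + m + 3 * s + m) N := by ring
  have f1 : a4 t p * A ≤ C * a4 t (p + m) := q1 t p (p + m) hk1 (by omega) (by omega)
  have f2 : a4 t (p + m) ≤ C ^ (3 * s) * a4 t (p + m + 3 * s) := q4 t (p + m) (3 * s) hk1 (by omega)
  have f3 : a4 t (p + m + 3 * s) * B ≤ C * a4 t (p + m + 3 * s + m) :=
    q1 t (p + m + 3 * s) (p + m + 3 * s + m) hk1 (by omega) (by omega)
  have f4 : a4 t (p + m + 3 * s + m) * a4 (p + m + 3 * s + m) N ≤ C * a4 t N :=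
    q1 t (p + m + 3 * s + m) N hk1 (by omega) (by omega)
  have n1 := VA21_nn (p + 3) (p + m)
  have n2 := VA21_nn (p + m + 3 * s) (p + m + 3 * s + m - 3)
  have n3 := VA21_nn (t + 1) (p + 1)
  have n4 := VA21_nn (p + m + 3 * s + m - 1) N
  have n5 := VA21_nn t p
  have n6 := VA21_nn (p + m + 3 * s + m) N
  have n7 := VA21_nn t N
  have key : A * B * (a4 t p * a4 (p + m + 3 * s + m) N) ≤ C ^ (3 * s + 3) * a4 t N := by
    calc A * B * (a4 t p * a4 (p + m + 3 * s + m) N)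
        = (a4 t p * A) * B * a4 (p + m + 3 * s + m) N := by ring
      _ ≤ (C * a4 t (p + m)) * B * a4 (p + m + 3 * s + m) N := by gcongr
      _ ≤ (C * (C ^ (3 * s) * a4 t (p + m + 3 * s))) * B * a4 (p + m + 3 * s + m) N := by gcongr
      _ = C ^ (3 * s + 1) * ((a4 t (p + m + 3 * s) * B) * a4 (p + m + 3 * s + m) N) := by ring
      _ ≤ C ^ (3 * s + 1) * ((C * a4 t (p + m + 3 * s + m)) * a4 (p + m + 3 * s + m) N) := by gcongr
      _ = C ^ (3 * s + 2) * (a4 t (p + m + 3 * s + m) * a4 (p + m + 3 * s + m) N) := by ring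
      _ ≤ C ^ (3 * s + 2) * (C * a4 t N) := by gcongr
      _ = C ^ (3 * s + 3) * a4 t N := by ring
  calc (a4 (p + 3) (p + m) * a4 (p + 3) (p + m) *
          a4 (p + m + 3 * s) (p + m + 3 * s + m - 3)) ^ 2 *
        (a4 (t + 1) (p + 1) * a4 (p + m + 3 * s + m - 1) N)
      ≤ ((C ^ 3 * A) * (C ^ 3 * A) * (C ^ 3 * B)) ^ 2 *
        ((C ^ 2 * a4 t p) * (C * a4 (p + m + 3 * s + m) N)) := by gcongr
    _ = C ^ 21 * (A ^ 3 * B) * (A * B * (a4 t p * a4 (p + m + 3 * s + m) N)) := by ring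
    _ ≤ C ^ 21 * (A ^ 3 * B) * (C ^ (3 * s + 3) * a4 t N) := by gcongr
    _ = C ^ (24 + 3 * s) * (A ^ 3 * B) * a4 t N := by ring
    _ ≤ C ^ (26 + 3 * s) * (A ^ 3 * B) * a4 t N := by
        have : C ^ (24 + 3 * s) ≤ C ^ (26 + 3 * s) := pow_le_pow_right₀ hC (by omega)
        gcongr

end TP
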