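import Pool.Agent.helper85.SP.UI1
import Pool.Agent.helper78.SP.UI2
import Pool.Agent.helper46.SP.UI3
import Pool.Agent.helper25.SP.UI4
import Pool.Agent.helper33.SP.UI5
import Pool.Agent.helper77.SP.UI6
import Pool.Agent.helper25.SP.UI7
import Pool.Agent.helper74.SP.UI8
import Pool.Agent.helper33.SP.UI9
import Pool.Agent.helper52.SP.UI10
import Pool.Agent.helper45.SP.UJ1
import Pool.Agent.helper33.SP.UJ2
import Pool.Agent.helper57.SP.UJ3
import Pool.Agent.helper4.SP.UJ4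
import Pool.Agent.helper52.SP.UJ5
import Pool.Agent.helper18.SP.UJ6
import Pool.Agent.helper13.SP.UJ7
import Pool.Agent.helper79.SP.UJ8
import Pool.Agent.helper26.SP.UJ9
import Pool.Agent.helper96.SP.UJ10
import Pool.Agent.helper73.SP.UJ11
import Pool.Agent.helper71.SP.UJ12
import Pool.Agent.helper12.SP.UJ13
import Pool.Agent.helper14.SP.UJ14
import Pool.Agent.helper43.SP.UJ15
import Pool.Agent.helper38.SP.UJ16
import Pool.Agent.helper32.SP.UJ17
import Pool.Agent.helper97.SP.UJ18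
import Pool.Agent.helper1.SP.UJ19
import Pool.Agent.helper27.SP.UJ20
import Pool.Agent.helper98.SP.VA1
import Pool.Agent.helper1.SP.VA2
import Pool.Agent.helper51.SP.VA3
import Pool.Agent.helper51.SP.VA4
import Pool.Agent.helper98.SP.VA5
import Pool.Agent.helper45.SP.VA6
import Pool.Agent.helper79.SP.VA7
import Pool.Agent.helper11.SP.VA8
import Pool.Agent.helper63.SP.VA9
import Pool.Agent.helper20.SP.VA10
import Pool.Agent.helper46.SP.VA11
import Pool.Agent.helper45.SP.VA12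
import Pool.Agent.helper33.SP.VA13
import Pool.Agent.helper95.SP.VA14
import Pool.Agent.helper64.SP.VA15
import Pool.Agent.helper97.SP.VA16
import Pool.Agent.helper43.SP.VA17
import Pool.Agent.helper57.SP.VA18
import Pool.Agent.helper95.SP.VA19
import Pool.Agent.helper95.SP.VA20
import Pool.Agent.helper33.SP.VA21
import Pool.Agent.helper27.SP.VA22

/-!
# Project sp: assembly of the pieces C1 and C2S

`AsmC` : from the external statements to `U1i_stmt`, `U2i_stmt`, `U2ii_stmt`.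
-/

namespace TP

open DP MeasureTheory

theorem AsmC (hSIXU : SIXU_stmt) (hTC : DP.TC_stmt) (hAM : DP.AM_stmt) (hHX : HX_stmt)
    (hRC : RC_stmt) (hI : Bindep_stmt) (hZ : Bzero_stmt) (hs : Bsym_stmt) (hm : Bmarg_stmt)
    (hfl : Bflip_stmt) (hQZ : QZ_stmt) (hQMX : QMX_stmt) (hEXR : EXR_stmt) (hSE2 : SE2_stmt)
    (hCG1 : CG1_stmt) (hCG2 : CG2_stmt)
    (hWI : K.WI_stmt) (hWB : K.WB_stmt) (hLG : K.LG_stmt) (hLQ : K.LQ_stmt) (hGP : K.GP_stmt)
    (hGB : K.GB_stmt) (hUPP : K.UPP_stmt) (hBTH : K.BTH_stmt) (hGSB : K.GSB_stmt)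
    (hSX : K.SX1_stmt) (hQAA : K.QAA_stmt) (hCHE : K.CHE_stmt) (hGD1 : GD1_stmt)
    (hDUAL : DUAL_stmt) : U1i_stmt ∧ U2i_stmt ∧ U2ii_stmt := by
  have i1 := UI1
  have i2 := UI2 i1
  have i3 := UI3 hTC
  have i10 := UI10 hHX hRC
  have i4 := UI4 i2 i3 i10 hAM
  have i5 := UI5
  have i6 := UI6 i5 hI hZ
  have i7 := UI7 hs hm i5
  have i8 := UI8 hQZ hQMX hEXR
  have i9 := UI9 hSIXU i4 i5 i6 i7 i8 hfl hAM
  have j1 := UJ1
  have j3 := UJ3 j1 UJ2
  have j4 := UJ4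
  have j5 := UJ5
  have j6 := UJ6
  have j7 := UJ7 j5 j6
  have j8 := UJ8
  have j9 := UJ9
  have j10 := UJ10
  have j11 := UJ11 i1
  have j12 := UJ12 j9 j10
  have j13 := UJ13 hLG hLQ
  have j14 := UJ14 j11 j12
  have j15 := UJ15 i1 hAM
  have j16 := UJ16 hGSB hBTH hGB hUPP hWB hLQ i7
  have j17 := UJ17 j5 i7
  have j18 := UJ18 j16 j17 hLQ i7 i8
  have j19 := UJ19 j13 j18 hCHE hWB hLQ i7
  have j20 := UJ20 j3 j4 j5 j7 j8 j13 j14 j15 j19 i8 hLQ
  have v1 := VA1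
  have v2 := VA2 v1 j5
  have v4 := VA4 hGD1 hDUAL j9 j10
  have v5 := VA5 hGD1
  have v6 := VA6 v4 v5 i5
  have v7 := VA7 v1 v5 j13
  have v8 := VA8
  have v9 := VA9
  have v10 := VA10 v1 v2 j4 v5 v6 v7 v9 j5
  have v11 := VA11 j4 j5 v5 v8 v10
  have v12 := VA12 v7 v9 j5 j4 j15 hLQ
  have v13 := VA13 j4 j5 v5 v7 v9 v11 v12 hLQ
  have v14 := VA14 hWI hWB hLQ i7 j5 v7 v8
  have v15 := VA15 hSE2 hZ hCG1 hCG2
  have v16 := VA16 v15 hGP hLQ
  have v17 := VA17 hSX hLQ hI hZ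
  have v18 := VA18 hGSB hSX hGB hBTH hQAA i7 hWB hLG hLQ
  have v19 := VA19 j5 hLQ hGB v16 v17 v18
  have v20 := VA20 hCHE v7 v19 i7
  have v21 := VA21 i8
  have v22 := VA22 j3 j4 v8 v13 v14 v20 v21
  exact ⟨i9, j20, v22⟩

end TP
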