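import Pool.Agent.helper61.SP.SpecDX
import Pool.Agent.helper33.SP.UJ2
import Pool.Agent.helper45.SP.UJ1
import Pool.Agent.helper57.SP.UJ3

/-!
# Project sp, module DX9: Bessel inequality for the spectral sample
-/

namespace TP

open DP MeasureTheory

theorem DX9_chr (v : V) (T : Finset V) (hv : v ∈ T) (b : V → Bool) :
    chr T (flp {v} b) = -chr T b := by
  classical
  unfold chr
  rw [← Finset.mul_prod_erase T _ hv, ← Finset.mul_prod_erase T (fun u => sg (b u)) hv]
  have e1 : flp {v} b v = !(b v) := by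
    unfold flp
    rw [if_pos (Set.mem_singleton v)]
  have e2 : ∏ u ∈ T.erase v, sg (flp {v} b u) = ∏ u ∈ T.erase v, sg (b u) := by
    refine Finset.prod_congr rfl fun u hu => ?_
    have hne : u ≠ v := Finset.ne_of_mem_erase hu
    unfold flp
    rw [if_neg (by simpa using hne)]
  rw [e1, e2, UJ2_sg]
  ring

theorem DX9_zero (G : Set (V → Bool)) (A : Set V) (hG : DP.Dep G A) (v : V) (hA : v ∉ A)
    (T : Finset V) (hv : v ∈ T) : fh G T = 0 := by
  classical
  have h1 := VA1_integral {v} (fun b => pmf G b * chr T b)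
  have h2 : (fun b => pmf G (flp {v} b) * chr T (flp {v} b)) = fun b => -(pmf G b * chr T b) := by
    funext b
    have h3 : flp {v} b ∈ G ↔ b ∈ G := by
      refine hG _ _ fun u hu => ?_
      unfold flp
      rw [if_neg]
      rintro rfl
      exact hA hu
    have h4 : pmf G (flp {v} b) = pmf G b := by
      unfold pmf Set.indicator
      by_cases hb : b ∈ G
      · rw [if_pos hb, if_pos (h3.2 hb)]
        rfl
      · rw [if_neg hb, if_neg fun h => hb (h3.1 h)]
    rw [h4, DX9_chr v T hv b]
    ring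
  rw [h2, integral_neg] at h1
  have h5 : fh G T = ∫ b, pmf G b * chr T b ∂P1 := rfl
  rw [h5]
  linarith

theorem DX9 : DX9_stmt := by
  classical
  intro F G Λ U hF hG
  have := UJ1_P1
  have hG' : DP.Dep G (Λ : Set V) := fun b b' h => hG b b' fun v hv => h v hv.1
  have e1 : ∀ b, pmf F b - pmf G b = ∑ T ∈ Λ.powerset, (fh F T - fh G T) * chr T b := by
    intro b
    rw [UJ1 F Λ hF b, UJ1 G Λ hG' b, ← Finset.sum_sub_distrib]
    exact Finset.sum_congr rfl fun T _ => by ring
  have h1 : ∫ b, (pmf F b - pmf G b) ^ 2 ∂P1 = ∑ T ∈ Λ.powerset, (fh F T - fh G T) ^ 2 := by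
    simp only [e1]
    exact UJ3_sq UJ2 _ _
  have hFm : MeasurableSet F := UJ1_meas hF
  have hGm : MeasurableSet G := UJ1_meas hG'
  have h2 : ∀ b, (pmf F b - pmf G b) ^ 2 =
      4 * (F \ G).indicator 1 b + 4 * (G \ F).indicator 1 b := by
    intro b
    unfold pmf
    by_cases hb : b ∈ F <;> by_cases hb' : b ∈ G <;>
      simp [Set.indicator, hb, hb'] <;> norm_num
  have hi : ∀ A : Set (V → Bool), MeasurableSet A →
      Integrable (A.indicator (1 : (V → Bool) → ℝ)) P1 := fun A hA =>
    (integrable_const (1 : ℝ)).indicator hA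
  have h3 : ∫ b, (pmf F b - pmf G b) ^ 2 ∂P1 = 4 * (Pr (F \ G) + Pr (G \ F)) := by
    simp only [h2]
    rw [integral_add ((hi _ (hFm.diff hGm)).const_mul 4) ((hi _ (hGm.diff hFm)).const_mul 4),
      integral_const_mul, integral_const_mul, integral_indicator_one (hFm.diff hGm),
      integral_indicator_one (hGm.diff hFm)]
    unfold Pr
    ring
  rw [← h3, h1]
  unfold PSF
  refine Finset.sum_le_sum fun T _ => ?_
  split_ifs with h
  · obtain ⟨v, hv, hU⟩ := h
    have hz : fh G T = 0 := by
      refine DX9_zero G _ hG v ?_ T (by simpa using hv)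
      rintro ⟨-, h4⟩
      exact h4 hU
    rw [hz, sub_zero]
  · positivity

end TP
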