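import Pool.Agent.helper3.SP.SpecPP
import Pool.Agent.helper64.TP.Conv
import Pool.Agent.helper64.TP.Basic

/-!
# Project sp, module PK5: two copies
-/

namespace TP

open DP MeasureTheory

theorem PK5_sd {u v : V} {n : ℕ} : sd u v < n ↔ |v.1 - u.1| < n ∧ |v.2 - u.2| < n := by
  unfold sd
  rw [max_lt_iff, abs_lt, abs_lt]
  omega

theorem PK5_br (v : V) : (br v).2 = v.2 ∧ ((br v).1 = v.1 ∨ (br v).1 = v.1 - 1) :=
  ⟨br_snd v, br_fst v⟩

/-- Region of the black wire. -/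
theorem PK5_rB {y v : V} {ℓ : ℕ} (h : v ∈ regL (coreB y ℓ).all) :
    |v.1 - y.1| < 35 * ℓ ∧ |v.2 - y.2| < 3 * ℓ := by
  obtain ⟨q, hq, hv⟩ := h
  simp only [Wire.all, Wire.cel, coreB, scel, List.flatMap_cons, List.flatMap_nil, List.append_nil,
    List.map_map, List.mem_map, List.mem_range, Function.comp] at hq
  obtain ⟨t, ht, rfl⟩ := hq
  rw [PK5_sd] at hv
  simp only [zpt] at hv
  obtain ⟨h1, h2⟩ := hv
  simp only [Nat.zero_mod, if_true] at h1 h2
  push_cast at h1 h2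
  have h3 : (t : ℤ) * ℓ ≤ 32 * ℓ := by
    have : (t : ℤ) ≤ 32 := by exact_mod_cast Nat.lt_succ_iff.1 ht
    nlinarith
  have h4 : 0 ≤ (t : ℤ) * ℓ := by positivity
  rw [abs_lt] at h1 h2 ⊢
  rw [abs_lt]
  constructor
  · constructor <;> nlinarith
  · exact h2

/-- Region of the white wire. -/
theorem PK5_rW {y v : V} {ℓ : ℕ} (h : v ∈ regL (coreW y ℓ).all) :
    |v.1 - y.1| < 3 * ℓ ∧ |v.2 - y.2| < 35 * ℓ := by
  obtain ⟨q, hq, hv⟩ := h
  simp only [Wire.all, Wire.cel, coreW, scel, List.flatMap_cons, List.flatMap_nil, List.append_nil,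
    List.map_map, List.mem_map, List.mem_range, Function.comp] at hq
  obtain ⟨t, ht, rfl⟩ := hq
  rw [PK5_sd] at hv
  simp only [zpt] at hv
  obtain ⟨h1, h2⟩ := hv
  norm_num at h1 h2
  have h3 : (t : ℤ) * ℓ ≤ 32 * ℓ := by
    have : (t : ℤ) ≤ 32 := by exact_mod_cast Nat.lt_succ_iff.1 ht
    nlinarith
  have h4 : 0 ≤ (t : ℤ) * ℓ := by positivity
  rw [abs_lt] at h1 h2 ⊢
  rw [abs_lt]
  constructor
  · exact h1
  · constructor <;> nlinarith

theorem PK5_lenB (y : V) (ℓ : ℕ) : (coreB y ℓ).all.length = 33 := by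
  simp [Wire.all, Wire.cel, coreB, scel]

theorem PK5_lenW (y : V) (ℓ : ℕ) : (coreW y ℓ).all.length = 33 := by
  simp [Wire.all, Wire.cel, coreW, scel]

theorem PK5_szB (y : V) (ℓ : ℕ) : ∀ q ∈ (coreB y ℓ).all, q.2 = ℓ := by
  intro q hq
  simp only [Wire.all, Wire.cel, coreB, scel, List.flatMap_cons, List.flatMap_nil, List.append_nil,
    List.map_map, List.mem_map, List.mem_range, Function.comp] at hq
  obtain ⟨t, ht, rfl⟩ := hq
  rfl

theorem PK5_szW (y : V) (ℓ : ℕ) : ∀ q ∈ (coreW y ℓ).all, q.2 = ℓ := by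
  intro q hq
  simp only [Wire.all, Wire.cel, coreW, scel, List.flatMap_cons, List.flatMap_nil, List.append_nil,
    List.map_map, List.mem_map, List.mem_range, Function.comp] at hq
  obtain ⟨t, ht, rfl⟩ := hq
  rfl

/-- The relocation is an involution. -/
theorem PK5_inv {y : V} {a D : ℕ} (hD : 2 * 2 ^ (a - 1) ≤ D) (hD0 : 0 < D) :
    Function.Involutive (rlf (Inr y a) D) := by
  intro v
  unfold rlf Inr
  simp only [Set.mem_ofPred_eq]
  by_cases h1 : sd y v + 2 ≤ 2 ^ (a - 1)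
  · rw [if_pos h1]
    have h2 : ¬ sd y (v.1 + (D : ℤ), v.2) + 2 ≤ 2 ^ (a - 1) := by
      intro h3
      unfold sd at h1 h3
      simp only at h3
      omega
    rw [if_neg h2]
    simp only [add_sub_cancel_right]
    rw [if_pos h1]
  · rw [if_neg h1]
    by_cases h2 : sd y (v.1 - (D : ℤ), v.2) + 2 ≤ 2 ^ (a - 1)
    · rw [if_pos h2, if_pos h2]
      simp only [sub_add_cancel]
    · rw [if_neg h2, if_neg h1, if_neg h2]

/-- The relocated sites. -/
noncomputable def PK5_th (I : Set V) (D : ℕ) (v : V) : V := by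
  classical
  exact if br v ∈ I then (v.1 + D, v.2) else v

theorem PK5_brth {I : Set V} {D : ℕ} (hD : D % 2 = 0) (v : V)
    (hf : br v ∉ I → ((br v).1 - D, (br v).2) ∉ I) :
    br (PK5_th I D v) = rlf I D (br v) := by
  classical
  unfold PK5_th rlf
  by_cases h : br v ∈ I
  · rw [if_pos h, if_pos h]
    unfold br
    have e : ((v.1 + (D : ℤ), v.2).1 + (v.1 + (D : ℤ), v.2).2) % 2 = (v.1 + v.2) % 2 := by
      simp only
      omega
    rw [e]
    split_ifs with h2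
    · rfl
    · ext
      · simp only
        omega
      · rfl
  · rw [if_neg h, if_neg h, if_neg (hf h)]

theorem PK5_Q (hsym : Bsym_stmt) (hmarg : Bmarg_stmt) (φ : V ≃ V) (F : Set (V → Bool))
    (A A' : Set V) (hF : Loc F A) (hF' : Loc {b | (fun v => b (φ v)) ∈ F} A') :
    Pr {b | (fun v => b (φ v)) ∈ F} = Pr F := by
  have h1 := hsym φ (fun _ => 0) F Set.univ A hF (Loc.univ A)
  rw [hmarg _ F A hF] at h1
  have e : {b : V → Bool | (fun v => b (φ v)) ∈ (Set.univ : Set (V → Bool))} = Set.univ := by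
    ext b
    simp
  rw [e, hmarg _ _ A' hF'] at h1
  exact h1

theorem PK5_av {y v : V} {ℓ a : ℕ} {k : Bool}
    (h : v ∉ (Dmark 4 y (2 ^ (a - 1))).N k) (e : 2 ^ (a - 1) = 32 * ℓ) :
    ∀ l < 4, kol l ≠ k → 4 * ℓ < sd (zpt y (32 * ℓ) l) v := by
  intro l hl hk
  by_contra hc
  apply h
  refine Or.inr ⟨l, hl, hk, ?_⟩
  rw [e, show 32 * ℓ / 8 = 4 * ℓ by omega]
  exact not_lt.1 hc

theorem PK5 (h11 : PP11_stmt) (h12 : PP12_stmt) (hGXL : GXL_stmt) (hLG : K.LG_stmt)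
    (hGSB : K.GSB_stmt) (hQAA : K.QAA_stmt) (hUI7 : UI7_stmt) (hC1 : C1_stmt)
    (hsym : Bsym_stmt) (hmarg : Bmarg_stmt) : PK5_stmt := by
  classical
  obtain ⟨c₀, hc₀, ℓ₀, -, hC⟩ := hC1
  obtain ⟨c₁, hc₁, g₀, i₁, hG⟩ := hGSB
  obtain ⟨-, -, -, C, k₁, hC1', hA, -⟩ := hQAA
  set g := g₀ + 1 with hg
  have hCpos : 0 < C := by linarith
  refine ⟨c₁ * (1 / C ^ (g + 1)) * (c₀ ^ 33 * c₀ ^ 33), g, max (max i₁ k₁) (ℓ₀ + 12), by positivity,
    by omega, ?_⟩
  intro y a hy ha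
  have ha1 : i₁ ≤ a := by omega
  have ha2 : k₁ ≤ a := by omega
  have ha3 : ℓ₀ + 12 ≤ a := by omega
  set ℓ := 2 ^ (a - 6) with hℓ
  have hℓ0 : ℓ₀ ≤ ℓ := by
    have h1 : ℓ₀ < 2 ^ ℓ₀ := Nat.lt_two_pow_self
    have h2 : 2 ^ ℓ₀ ≤ 2 ^ (a - 6) := Nat.pow_le_pow_right (by norm_num) (by omega)
    omega
  have hℓ1 : 64 ≤ ℓ := by
    have h2 : 2 ^ 6 ≤ 2 ^ (a - 6) := Nat.pow_le_pow_right (by norm_num) (by omega)
    omega
  have e1 : 2 ^ (a - 1) = 32 * ℓ := by
    rw [hℓ, show a - 1 = (a - 6) + 5 by omega, pow_add]; ring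
  have e2 : 2 ^ a = 64 * ℓ := by
    rw [hℓ]; conv_lhs => rw [show a = (a - 6) + 6 by omega, pow_add]
    ring
  set G := 2 ^ g * ℓ with hGdef
  have hG2 : 2 * ℓ ≤ G := by
    have : 2 ^ 1 ≤ 2 ^ g := Nat.pow_le_pow_right (by norm_num) (by omega)
    exact Nat.mul_le_mul_right ℓ this
  have e3 : 2 ^ (a + g) = 64 * G := by rw [pow_add, e2, hGdef]; ring
  have e4 : 2 ^ (a + g + 1) = 128 * G := by rw [pow_succ, e3]; ring
  have e5 : 2 ^ (a + g + 4) = 1024 * G := by rw [show a + g + 4 = a + g + 1 + 3 by omega, pow_add, e4]; ring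
  set D := 2 ^ (a + g + 4) with hD
  have hinv := PK5_inv (y := y) (a := a) (D := D) (by rw [e1, e5]; omega) (by rw [e5]; omega)
  set φ : V ≃ V := hinv.toPerm _ with hφ
  have hφv : ∀ v, φ v = rlf (Inr y a) D v := fun v => rfl
  -- the events
  set X : Set (V → Bool) := Ev fun c => Gate c y (2 ^ a) (2 ^ (a + g)) with hX
  set Ep : Set (V → Bool) := Ev fun c => MrkC c 4 true y (2 ^ (a + g + 1)) (Dmark 4 y (2 ^ (a - 1)))
    (zpt y (2 ^ (a + g + 1))) (2 ^ (a + g + 1) / 64) (2 ^ (a + g + 1) / 8) true with hEp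
  set Em : Set (V → Bool) := Ev fun c => MrkC c 4 true y (2 ^ (a + g + 1)) (Dmark 4 y (2 ^ (a - 1)))
    (zpt y (2 ^ (a + g + 1))) (2 ^ (a + g + 1) / 64) (2 ^ (a + g + 1) / 8) false with hEm
  have hEpE := hGXL 4 true y (2 ^ (a + g + 1)) (Dmark 4 y (2 ^ (a - 1)))
    (zpt y (2 ^ (a + g + 1))) (2 ^ (a + g + 1) / 64) (2 ^ (a + g + 1) / 8) true (Or.inl rfl)
  have hEmE := hGXL 4 true y (2 ^ (a + g + 1)) (Dmark 4 y (2 ^ (a - 1)))
    (zpt y (2 ^ (a + g + 1))) (2 ^ (a + g + 1) / 64) (2 ^ (a + g + 1) / 8) false (Or.inl rfl)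
  set Up : Set (V → Bool) := Ev fun c => Lps c true (coreB y ℓ).all with hUp
  set Um0 : Set (V → Bool) := Ev fun c => Lps c false (coreW y ℓ).all with hUm0
  set Um : Set (V → Bool) := {b | (fun v => b (φ v)) ∈ Um0} with hUm
  obtain ⟨u1, u2, u3⟩ := h11 c₀ true (coreB y ℓ).all hc₀.le fun q hq => by
    rw [PK5_szB y ℓ q hq]; exact hC true q.1 ℓ hℓ0
  obtain ⟨w1, w2, w3⟩ := h11 c₀ false (coreW y ℓ).all hc₀.le fun q hq => by
    rw [PK5_szW y ℓ q hq]; exact hC false q.1 ℓ hℓ0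
  rw [PK5_lenB] at u1
  rw [PK5_lenW] at w1
  have hfar : ∀ v ∈ regL (coreW y ℓ).all, ((br v).1 - (D : ℤ), (br v).2) ∉ Inr y a := by
    intro v hv h1
    have h2 := PK5_rW hv
    have h3 := PK5_br v
    unfold Inr at h1
    simp only [Set.mem_ofPred_eq] at h1
    unfold sd at h1
    simp only at h1
    rw [abs_lt, abs_lt] at h2
    rw [e1] at h1
    rw [e5] at h1
    push_cast at h1
    omega
  have hUmL : Loc Um (PK5_th (Inr y a) D '' regL (coreW y ℓ).all) := by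
    obtain ⟨Λ, hΛ, hd⟩ := w2
    refine ⟨Λ.image (PK5_th (Inr y a) D), ?_, ?_⟩
    · rw [Finset.coe_image]
      exact Set.image_mono hΛ
    · intro b b' hb
      refine hd _ _ fun v hv => ?_
      have h1 := hb (PK5_th (Inr y a) D v) (by
        rw [Finset.coe_image]; exact Set.mem_image_of_mem _ hv)
      rw [PK5_brth (by rw [e5]; omega) v fun _ => hfar v (hΛ hv)] at h1
      exact h1
  have hUmM : Mon false Um := by
    intro b b' hb hbU
    exact w3 _ _ (fun v hv => hb _ hv) hbU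
  have hUmP : Pr Um = Pr Um0 := PK5_Q hsym hmarg φ Um0 _ _ w2 hUmL
  -- geometry
  have hBu : ∀ w ∈ PK5_th (Inr y a) D '' regL (coreW y ℓ).all,
      (|w.1 - y.1| < 3 * ℓ ∧ 32 * ℓ ≤ |w.2 - y.2| + 1 ∧ |w.2 - y.2| < 35 * ℓ) ∨
        1024 * (G : ℤ) - 3 * ℓ < w.1 - y.1 := by
    rintro w ⟨v, hv, rfl⟩
    have h2 := PK5_rW hv
    have h3 := PK5_br v
    unfold PK5_th
    split_ifs with h4
    · right
      simp only
      rw [abs_lt] at h2
      rw [e5]
      push_cast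
      omega
    · left
      unfold Inr at h4
      simp only [Set.mem_ofPred_eq] at h4
      unfold sd at h4
      rw [e1] at h4
      refine ⟨h2.1, ?_, h2.2⟩
      rw [abs_lt, abs_lt] at h2
      rcases le_total 0 (v.2 - y.2) with h5 | h5
      · rw [abs_of_nonneg h5]; omega
      · rw [abs_of_nonpos h5]; omega
  have key := h12 X Ep Em Up Um (ann y (2 ^ a) (2 ^ (a + g))) _ _ (regL (coreB y ℓ).all)
    (PK5_th (Inr y a) D '' regL (coreW y ℓ).all) (hLG y a (a + g)).1 hEpE.1 hEmE.1 u2 hUmL hEpE.2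
    hEmE.2 u3 hUmM ?_ ?_ ?_ ?_ ?_
  · -- conclusion
    have hX4 : X ∩ (Ep ∩ Em) = GtC g y a := rfl
    have hP : c₁ * (1 / C ^ (g + 1)) ≤ Pr (X ∩ (Ep ∩ Em)) := by
      rw [hX4]
      have h1 := hG y a (a + g) (Int.even_iff.2 hy) ha1 (by omega)
      have h2 : Pr (F4 y a (a + g)) = a4 a (a + g) := (hUI7.2 y (2 ^ a) (2 ^ (a + g)) hy).1
      have h3 := hA a g ha2
      have h4 : 1 / C ^ (g + 1) ≤ a4 a (a + g) := by
        rw [div_le_iff₀ (by positivity)]
        exact h3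
      calc c₁ * (1 / C ^ (g + 1)) ≤ c₁ * a4 a (a + g) := by gcongr
        _ = c₁ * Pr (F4 y a (a + g)) := by rw [h2]
        _ ≤ _ := h1
    have hsub : X ∩ (Ep ∩ Em ∩ (Up ∩ Um)) = {b | b ∈ GtC g y a ∧
        Lps (col b) true (coreB y (2 ^ (a - 6))).all ∧
        Lps (col fun v => b (rlf (Inr y a) (2 ^ (a + g + 4)) v)) false (coreW y (2 ^ (a - 6))).all} := by
      ext b
      constructor
      · rintro ⟨h1, ⟨h2, h3⟩, h4, h5⟩
        exact ⟨⟨h1, h2, h3⟩, h4, h5⟩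
      · rintro ⟨⟨h1, h2, h3⟩, h4, h5⟩
        exact ⟨h1, ⟨h2, h3⟩, h4, h5⟩
    rw [← hsub]
    refine le_trans ?_ key
    rw [hUmP]
    have p1 : 0 ≤ Pr (X ∩ (Ep ∩ Em)) := measureReal_nonneg
    have p2 : 0 ≤ Pr Up := measureReal_nonneg
    gcongr
  · -- black wire, relocated white wire
    intro v hv w hw hbr
    have h1 := PK5_rB hv
    have h2 := br_eq_sd hbr
    unfold sd at h2
    rw [abs_lt, abs_lt] at h1
    rcases hBu w hw with h3 | h3
    · rcases le_total 0 (w.2 - y.2) with h5 | h5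
      · rw [abs_of_nonneg h5] at h3; omega
      · rw [abs_of_nonpos h5] at h3; omega
    · omega
  · -- gate, black wire
    rintro v ⟨hv, -⟩ w hw hbr
    have h1 := PK5_rB hw
    have h2 := br_eq_sd hbr
    rw [e2] at hv
    unfold sd at h2 hv
    rw [abs_lt, abs_lt] at h1
    omega
  · -- gate, white wire
    rintro v ⟨hv, hv'⟩ w hw hbr
    have h2 := br_eq_sd hbr
    rw [e2] at hv
    rw [e3] at hv'
    unfold sd at h2 hv hv'
    rcases hBu w hw with h3 | h3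
    · rw [abs_lt, abs_lt] at h3
      omega
    · omega
  · -- black arms, white wire
    rintro v ⟨hv, hv'⟩ w hw hbr
    have h2 := br_eq_sd hbr
    have h4 : sd y v ≤ 128 * G := by
      rw [← e4]
      exact hv
    have h5 := PK5_av (ℓ := ℓ) (k := true) (fun h => hv' (Or.inl h)) e1
    have h6 := h5 1 (by norm_num) (by decide)
    have h7 := h5 3 (by norm_num) (by decide)
    have h8 : zpt y (32 * ℓ) 1 = (y.1, y.2 + 32 * ℓ) := by unfold zpt; norm_num
    have h9 : zpt y (32 * ℓ) 3 = (y.1, y.2 - 32 * ℓ) := by unfold zpt; norm_num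
    rw [h8] at h6
    rw [h9] at h7
    unfold sd at h2 h4 h6 h7
    simp only at h6 h7
    rcases hBu w hw with h3 | h3
    · rcases le_total 0 (w.2 - y.2) with h5 | h5
      · rw [abs_of_nonneg h5, abs_lt] at h3; omega
      · rw [abs_of_nonpos h5, abs_lt] at h3; omega
    · omega
  · -- white arms, black wire
    rintro v ⟨hv, hv'⟩ w hw hbr
    have h2 := br_eq_sd hbr
    have h1 := PK5_rB hw
    rw [abs_lt, abs_lt] at h1
    have h5 := PK5_av (ℓ := ℓ) (k := false) (fun h => hv' (Or.inl h)) e1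
    have h6 := h5 0 (by norm_num) (by decide)
    have h7 := h5 2 (by norm_num) (by decide)
    have h10 : 32 * ℓ ≤ sd y v := by
      rw [← e1]
      by_contra hc
      exact hv' (Or.inl (Or.inl (not_le.1 hc)))
    have h8 : zpt y (32 * ℓ) 0 = (y.1 + 32 * ℓ, y.2) := by unfold zpt; norm_num
    have h9 : zpt y (32 * ℓ) 2 = (y.1 - 32 * ℓ, y.2) := by unfold zpt; norm_num
    rw [h8] at h6
    rw [h9] at h7
    unfold sd at h2 h10 h6 h7
    simp only at h6 h7
    omega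

end TP
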