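import Pool.Agent.helper3.SP.SpecPP
import Pool.Agent.helper45.SP.UJ1
import Pool.Agent.helper52.SP.UJ5
import Pool.Agent.helper35.DP.BIND
import Pool.Agent.helper49.DP.BSYM
import Pool.Agent.helper95.DP.BEASY

/-!
# Project sp, module PK6: two copies and averages
-/

namespace TP

open DP MeasureTheory

theorem PK6_fin {F : Set (V → Bool)} {L : Finset V} (h : DP.Dep F (L : Set V)) :
    FinR (F.indicator 1) := by
  refine ⟨L, fun b b' hb => ?_⟩
  have h1 := h b b' hb
  by_cases h2 : b ∈ F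
  · rw [Set.indicator_of_mem h2, Set.indicator_of_mem (h1.1 h2)]
    rfl
  · rw [Set.indicator_of_notMem h2, Set.indicator_of_notMem fun h3 => h2 (h1.2 h3)]

theorem PK6_ind {F : Set (V → Bool)} {b b' : V → Bool} (h : b ∈ F ↔ b' ∈ F) :
    F.indicator (1 : (V → Bool) → ℝ) b = F.indicator 1 b' := by
  by_cases h2 : b ∈ F
  · rw [Set.indicator_of_mem h2, Set.indicator_of_mem (h.1 h2)]
    rfl
  · rw [Set.indicator_of_notMem h2, Set.indicator_of_notMem fun h3 => h2 (h.2 h3)]

theorem PK6_shift (D : ℤ) (F : Set (V → Bool)) (A : Set V) (hF : DP.Loc F A) :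
    Pr {b | (fun v : V => b (v.1 + D, v.2)) ∈ F} = Pr F := by
  classical
  set φ : V ≃ V := ⟨fun v => (v.1 + D, v.2), fun v => (v.1 - D, v.2), fun v => by simp,
    fun v => by simp⟩ with hφ
  have h1 := DP.Bsym φ (fun _ => 0) F Set.univ A hF
    (show DP.Loc Set.univ A from ⟨∅, by simp, fun _ _ _ => Iff.rfl⟩)
  rw [DP.Bmarg _ F A hF] at h1
  have e : {b : V → Bool | (fun v => b (φ v)) ∈ (Set.univ : Set (V → Bool))} = Set.univ := by
    ext b
    simp
  have hF' : DP.Loc {b : V → Bool | (fun v => b (φ v)) ∈ F} Set.univ := by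
    obtain ⟨Λ, -, hd⟩ := hF
    refine ⟨Λ.image φ, Set.subset_univ _, fun b b' hb => hd _ _ fun v hv => ?_⟩
    exact hb (φ v) (by simpa using hv)
  rw [e, DP.Bmarg _ _ _ hF'] at h1
  exact h1

theorem PK6 : PK6_stmt := by
  classical
  intro G H H' y I B D hBD hI hG hH hH' hGI
  have := UJ1_P1
  set I' : Set V := {v | ((v.1 - D, v.2) : V) ∈ I} with hI'
  set U : Set V := I ∪ I' with hU
  set E : Set (V → Bool) := {b | b ∈ G ∧ b ∈ H ∧ (fun v => b (rlf I D v)) ∈ H'} with hE
  -- positions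
  have hb1 : ∀ v ∈ box y B, v ∉ I' := by
    intro v hv h1
    have h2 := hI h1
    unfold box sd at h2 hv
    simp only [Set.mem_ofPred_eq] at h2 hv
    omega
  have hb2 : ∀ v ∈ box y B, rlf I D v = if v ∈ I then (v.1 + D, v.2) else v := by
    intro v hv
    unfold rlf
    have := hb1 v hv
    rw [hI'] at this
    simp only [Set.mem_ofPred_eq] at this
    rw [if_neg this]
  have hfin : (box y B).Finite := box_finite y B
  have hdep : ∀ F : Set (V → Bool), DP.Dep F (box y B) → DP.Dep F (hfin.toFinset : Set V) := by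
    intro F hF
    rwa [Set.Finite.coe_toFinset]
  have hfin2 : (box y (B + D)).Finite := box_finite y (B + D)
  have hEd : DP.Dep E (hfin2.toFinset : Set V) := by
    rw [Set.Finite.coe_toFinset]
    intro b b' hb
    have h0 : ∀ v ∈ box y B, b v = b' v := by
      intro v hv
      refine hb v ?_
      unfold box at hv ⊢
      simp only [Set.mem_ofPred_eq] at hv ⊢
      omega
    have h3 : (fun v => b (rlf I D v)) ∈ H' ↔ (fun v => b' (rlf I D v)) ∈ H' := by
      refine hH' _ _ fun v hv => ?_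
      rw [hb2 v hv]
      refine hb _ ?_
      unfold box sd at hv ⊢
      simp only [Set.mem_ofPred_eq] at hv ⊢
      split_ifs
      · simp only
        omega
      · omega
    exact and_congr (hG b b' h0) (and_congr (hH b b' h0) h3)
  have hEm : MeasurableSet E := UJ1_meas hEd
  have hPr : Pr E = ∫ b, E.indicator 1 b ∂P1 := by
    rw [integral_indicator_one hEm]
    rfl
  rw [hPr, ← UJ5_mean (U := U) (PK6_fin hEd)]
  congr 1
  funext b
  -- the average
  set F1 : Set (V → Bool) := {b' | mx I b b' ∈ H} with hF1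
  set F2 : Set (V → Bool) := {b' | mx I b b' ∈ H'} with hF2
  set F3 : Set (V → Bool) := {b' | (fun v : V => b' (v.1 + D, v.2)) ∈ F2} with hF3
  have key : ∀ b' : V → Bool, (mx U b b' ∈ E ↔ b ∈ G ∧ b' ∈ F1 ∩ F3) := by
    intro b'
    have h1 : ∀ v ∈ box y B, mx U b b' v = mx I b b' v := by
      intro v hv
      unfold mx
      by_cases h2 : v ∈ I
      · rw [if_pos (show v ∈ U from Or.inl h2), if_pos h2]
      · rw [if_neg (show v ∉ U from fun h3 => h3.elim h2 (hb1 v hv)), if_neg h2]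
    have h2 : mx U b b' ∈ G ↔ b ∈ G := by
      rw [hG _ _ h1]
      refine (hGI b (mx I b b') fun v hv => ?_).symm
      unfold mx
      rw [if_neg hv]
    have h3 : mx U b b' ∈ H ↔ b' ∈ F1 := hH _ _ h1
    have h4 : (fun v => mx U b b' (rlf I D v)) ∈ H' ↔ b' ∈ F3 := by
      refine hH' _ _ fun v hv => ?_
      rw [hb2 v hv]
      unfold mx
      by_cases h5 : v ∈ I
      · rw [if_pos h5, if_pos h5]
        have h6 : ((v.1 + (D : ℤ), v.2) : V) ∈ U := by
          right
          rw [hI']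
          simp only [Set.mem_ofPred_eq, add_sub_cancel_right]
          exact h5
        rw [if_pos h6]
      · rw [if_neg h5, if_neg h5,
          if_neg (show v ∉ U from fun h3 => h3.elim h5 (hb1 v hv))]
    rw [hE]
    exact ⟨fun h => ⟨h2.1 h.1, h3.1 h.2.1, h4.1 h.2.2⟩,
      fun h => ⟨h2.2 h.1, h3.2 h.2.1, h4.2 h.2.2⟩⟩
  have hIf : I.Finite := hfin.subset hI
  have hL : ∀ F : Set (V → Bool), DP.Dep F (box y B) → DP.Loc {b' | mx I b b' ∈ F} I := by
    intro F hF
    refine ⟨hIf.toFinset, by rw [Set.Finite.coe_toFinset], ?_⟩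
    rw [Set.Finite.coe_toFinset]
    intro b1 b2 hb
    refine hF _ _ fun v _ => ?_
    unfold mx
    split_ifs with h
    · exact hb v h
    · rfl
  have hL1 : DP.Loc F1 I := hL H hH
  have hL2 : DP.Loc F2 I := hL H' hH'
  have hL3 : DP.Loc F3 I' := by
    obtain ⟨Λ, hΛ, hd⟩ := hL2
    refine ⟨Λ.image fun v => (v.1 + (D : ℤ), v.2), ?_, fun b1 b2 hb => hd _ _ fun v hv => ?_⟩
    · intro w hw
      rw [Finset.coe_image] at hw
      obtain ⟨v, hv, rfl⟩ := hw
      rw [hI']
      simp only [Set.mem_ofPred_eq, add_sub_cancel_right]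
      exact hΛ hv
    · refine hb _ ?_
      rw [Finset.coe_image]
      exact ⟨v, hv, rfl⟩
  have hdis : Disjoint I I' := by
    rw [Set.disjoint_left]
    intro v hv
    exact hb1 v (hI hv)
  have hprod : Pr (F1 ∩ F3) = Pr F1 * Pr F2 := by
    rw [DP.Bindep_Pr hdis hL1 hL3, PK6_shift (D : ℤ) F2 I hL2]
  have hm : MeasurableSet (F1 ∩ F3) := by
    obtain ⟨Λ, -, hd⟩ := hL1
    obtain ⟨Λ', -, hd'⟩ := hL3
    exact (UJ1_meas hd).inter (UJ1_meas hd')
  have hav : av U (E.indicator 1) b =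
      ∫ b', G.indicator 1 b * (F1 ∩ F3).indicator 1 b' ∂P1 := by
    unfold av
    congr 1
    funext b'
    by_cases h1 : b ∈ G <;> by_cases h2 : b' ∈ F1 ∩ F3 <;>
      simp [Set.indicator, key b', h1, h2]
  rw [hav, integral_const_mul, integral_indicator_one hm]
  show G.indicator 1 b * Pr (F1 ∩ F3) = _
  rw [hprod]

end TP
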