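import Pool.Agent.helper3.SP.SpecPP

/-!
# Project sp, module PP14: regions of the black wires
-/

namespace TP

open DP MeasureTheory

theorem PP14_sd {u v : V} {n : ℕ} : sd u v < n ↔ |v.1 - u.1| < n ∧ |v.2 - u.2| < n := by
  unfold sd
  rw [max_lt_iff, abs_lt, abs_lt]
  omega

/-- Membership in the region of a wire. -/
theorem PP14_mem {w : Wire} {v : V} (h : v ∈ regL w.all) :
    (∃ s ∈ w.sg, ∃ t ≤ s.2.2, sd (zpt s.1 (2 * t * w.l) s.2.1) v < 3 * w.l) ∨
      ∃ q ∈ w.bg, sd q.1 v < 3 * q.2 := by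
  obtain ⟨q, hq, hv⟩ := h
  unfold Wire.all at hq
  rcases List.mem_append.1 hq with h1 | h1
  · left
    obtain ⟨g, hg, rfl⟩ := List.mem_map.1 h1
    obtain ⟨s, hs, hg'⟩ := List.mem_flatMap.1 hg
    unfold scel at hg'
    obtain ⟨t, ht, rfl⟩ := List.mem_map.1 hg'
    exact ⟨s, hs, t, Nat.lt_succ_iff.1 (List.mem_range.1 ht), hv⟩
  · exact Or.inr ⟨q, h1, hv⟩

/-- A segment: the site is in a box around the segment. -/
theorem PP14_seg {x v : V} {d N ℓ t : ℕ} (ht : t ≤ N) (h : sd (zpt x (2 * t * ℓ) d) v < 3 * ℓ) :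
    (d % 4 = 0 → -(3 * (ℓ : ℤ)) < v.1 - x.1 ∧ v.1 - x.1 < 2 * (N * ℓ) + 3 * ℓ ∧
      |v.2 - x.2| < 3 * ℓ) ∧
    (d % 4 = 1 → -(3 * (ℓ : ℤ)) < v.2 - x.2 ∧ v.2 - x.2 < 2 * (N * ℓ) + 3 * ℓ ∧
      |v.1 - x.1| < 3 * ℓ) ∧
    (d % 4 = 2 → -(3 * (ℓ : ℤ)) < x.1 - v.1 ∧ x.1 - v.1 < 2 * (N * ℓ) + 3 * ℓ ∧
      |v.2 - x.2| < 3 * ℓ) ∧
    (d % 4 = 3 → -(3 * (ℓ : ℤ)) < x.2 - v.2 ∧ x.2 - v.2 < 2 * (N * ℓ) + 3 * ℓ ∧
      |v.1 - x.1| < 3 * ℓ) := by
  rw [PP14_sd] at h
  have h1 : (t : ℤ) * ℓ ≤ N * ℓ := by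
    have : (t : ℤ) ≤ N := by exact_mod_cast ht
    nlinarith
  have h0 : 0 ≤ (t : ℤ) * ℓ := by positivity
  have e : ((2 * t * ℓ : ℕ) : ℤ) = 2 * (t * ℓ) := by push_cast; ring
  push_cast at h
  rw [abs_lt, abs_lt] at h
  refine ⟨fun hd => ?_, fun hd => ?_, fun hd => ?_, fun hd => ?_⟩
  · have hz : zpt x (2 * t * ℓ) d = (x.1 + 2 * (t * ℓ), x.2) := by
      unfold zpt
      rw [if_pos hd, e]
    rw [hz] at h
    simp only at h
    rw [abs_lt]
    obtain ⟨⟨q1, q2⟩, q3, q4⟩ := h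
    refine ⟨?_, ?_, ?_, ?_⟩ <;> linarith
  · have hz : zpt x (2 * t * ℓ) d = (x.1, x.2 + 2 * (t * ℓ)) := by
      unfold zpt
      rw [if_neg (by omega), if_pos hd, e]
    rw [hz] at h
    simp only at h
    rw [abs_lt]
    obtain ⟨⟨q1, q2⟩, q3, q4⟩ := h
    refine ⟨?_, ?_, ?_, ?_⟩ <;> linarith
  · have hz : zpt x (2 * t * ℓ) d = (x.1 - 2 * (t * ℓ), x.2) := by
      unfold zpt
      rw [if_neg (by omega), if_neg (by omega), if_pos hd, e]
    rw [hz] at h
    simp only at h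
    rw [abs_lt]
    obtain ⟨⟨q1, q2⟩, q3, q4⟩ := h
    refine ⟨?_, ?_, ?_, ?_⟩ <;> linarith
  · have hz : zpt x (2 * t * ℓ) d = (x.1, x.2 - 2 * (t * ℓ)) := by
      unfold zpt
      rw [if_neg (by omega), if_neg (by omega), if_neg (by omega), e]
    rw [hz] at h
    simp only at h
    rw [abs_lt]
    obtain ⟨⟨q1, q2⟩, q3, q4⟩ := h
    refine ⟨?_, ?_, ?_, ?_⟩ <;> linarith

/-- Unfolding of one direction. -/
theorem PP14_dir {x v : V} {d N ℓ t : ℕ} (ht : t ≤ N) (h : sd (zpt x (2 * t * ℓ) d) v < 3 * ℓ) :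
    (d = 0 → -(3 * (ℓ : ℤ)) < v.1 - x.1 ∧ v.1 - x.1 < 2 * (N * ℓ) + 3 * ℓ ∧
      -(3 * (ℓ : ℤ)) < v.2 - x.2 ∧ v.2 - x.2 < 3 * ℓ) ∧
    (d = 1 → -(3 * (ℓ : ℤ)) < v.2 - x.2 ∧ v.2 - x.2 < 2 * (N * ℓ) + 3 * ℓ ∧
      -(3 * (ℓ : ℤ)) < v.1 - x.1 ∧ v.1 - x.1 < 3 * ℓ) ∧
    (d = 2 → -(3 * (ℓ : ℤ)) < x.1 - v.1 ∧ x.1 - v.1 < 2 * (N * ℓ) + 3 * ℓ ∧
      -(3 * (ℓ : ℤ)) < v.2 - x.2 ∧ v.2 - x.2 < 3 * ℓ) ∧
    (d = 3 → -(3 * (ℓ : ℤ)) < x.2 - v.2 ∧ x.2 - v.2 < 2 * (N * ℓ) + 3 * ℓ ∧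
      -(3 * (ℓ : ℤ)) < v.1 - x.1 ∧ v.1 - x.1 < 3 * ℓ) := by
  obtain ⟨p0, p1, p2, p3⟩ := PP14_seg ht h
  refine ⟨?_, ?_, ?_, ?_⟩
  · rintro rfl
    have q := p0 rfl
    rw [abs_lt] at q
    exact ⟨q.1, q.2.1, q.2.2.1, q.2.2.2⟩
  · rintro rfl
    have q := p1 rfl
    rw [abs_lt] at q
    exact ⟨q.1, q.2.1, q.2.2.1, q.2.2.2⟩
  · rintro rfl
    have q := p2 rfl
    rw [abs_lt] at q
    exact ⟨q.1, q.2.1, q.2.2.1, q.2.2.2⟩
  · rintro rfl
    have q := p3 rfl
    rw [abs_lt] at q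
    exact ⟨q.1, q.2.1, q.2.2.1, q.2.2.2⟩

theorem PP14_bg {u v : V} {n : ℕ} (h : sd u v < 3 * n) :
    -(3 * (n : ℤ)) < v.1 - u.1 ∧ v.1 - u.1 < 3 * n ∧ -(3 * (n : ℤ)) < v.2 - u.2 ∧
      v.2 - u.2 < 3 * n := by
  rw [PP14_sd, abs_lt, abs_lt] at h
  push_cast at h
  exact ⟨h.1.1, h.1.2, h.2.1, h.2.2⟩

theorem PP14_hubB (x : V) (ℓ : ℕ) (e : Bool) (v : V) (hv : v ∈ regL (hubB x ℓ e).all) :
      (29 * ℓ < sge e * (v.1 - x.1) ∧ sge e * (v.1 - x.1) < 131 * ℓ ∧ |v.2 - x.2| < 3 * ℓ) ∨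
      (125 * ℓ < sge e * (v.1 - x.1) ∧ sge e * (v.1 - x.1) < 131 * ℓ ∧ |v.2 - x.2| < 131 * ℓ) ∨
      (125 * ℓ < sge e * (v.1 - x.1) ∧ sge e * (v.1 - x.1) < 259 * ℓ ∧ 125 * ℓ < |v.2 - x.2| ∧
        |v.2 - x.2| < 131 * ℓ) ∨
      (232 * ℓ < sge e * (v.1 - x.1) ∧ sge e * (v.1 - x.1) < 280 * ℓ ∧ 104 * ℓ < |v.2 - x.2| ∧
        |v.2 - x.2| < 152 * ℓ) := by
  have hℓ : (0 : ℤ) ≤ ℓ := Int.natCast_nonneg ℓ
  rcases PP14_mem hv with ⟨s, hs, t, ht, h⟩ | ⟨q, hq, h⟩
  · simp only [hubB, List.mem_cons, List.not_mem_nil, or_false] at hs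
    rcases hs with rfl | rfl | rfl | rfl | rfl
    · right; right; left
      cases e
      · have q := (PP14_dir ht h).2.2.1 rfl
        simp only [hubB, sge, Bool.false_eq_true, if_false] at q ⊢
        push_cast at q
        exact ⟨by linarith, by linarith, lt_abs.2 (Or.inr (by linarith)),
          abs_lt.2 ⟨by linarith, by linarith⟩⟩
      · have q := (PP14_dir ht h).1 rfl
        simp only [hubB, sge, if_true] at q ⊢
        push_cast at q
        exact ⟨by linarith, by linarith, lt_abs.2 (Or.inr (by linarith)),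
          abs_lt.2 ⟨by linarith, by linarith⟩⟩
    · right; right; left
      cases e
      · have q := (PP14_dir ht h).2.2.1 rfl
        simp only [hubB, sge, Bool.false_eq_true, if_false] at q ⊢
        push_cast at q
        exact ⟨by linarith, by linarith, lt_abs.2 (Or.inl (by linarith)),
          abs_lt.2 ⟨by linarith, by linarith⟩⟩
      · have q := (PP14_dir ht h).1 rfl
        simp only [hubB, sge, if_true] at q ⊢
        push_cast at q
        exact ⟨by linarith, by linarith, lt_abs.2 (Or.inl (by linarith)),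
          abs_lt.2 ⟨by linarith, by linarith⟩⟩
    · right; left
      have q := (PP14_dir ht h).2.2.2 rfl
      cases e <;> simp only [hubB, sge, Bool.false_eq_true, if_false, if_true] at q ⊢ <;>
        push_cast at q <;>
        exact ⟨by linarith, by linarith, abs_lt.2 ⟨by linarith, by linarith⟩⟩
    · right; left
      have q := (PP14_dir ht h).2.1 rfl
      cases e <;> simp only [hubB, sge, Bool.false_eq_true, if_false, if_true] at q ⊢ <;>
        push_cast at q <;>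
        exact ⟨by linarith, by linarith, abs_lt.2 ⟨by linarith, by linarith⟩⟩
    · left
      cases e
      · have q := (PP14_dir ht h).2.2.1 rfl
        simp only [hubB, sge, Bool.false_eq_true, if_false] at q ⊢
        push_cast at q
        exact ⟨by linarith, by linarith, abs_lt.2 ⟨by linarith, by linarith⟩⟩
      · have q := (PP14_dir ht h).1 rfl
        simp only [hubB, sge, if_true] at q ⊢
        push_cast at q
        exact ⟨by linarith, by linarith, abs_lt.2 ⟨by linarith, by linarith⟩⟩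
  · simp only [hubB, List.mem_cons, List.not_mem_nil, or_false] at hq
    right; right; right
    rcases hq with rfl | rfl
    · have q := PP14_bg h
      cases e <;> simp only [sge, Bool.false_eq_true, if_false, if_true] at q ⊢ <;>
        push_cast at q <;>
        exact ⟨by linarith, by linarith, lt_abs.2 (Or.inl (by linarith)),
          abs_lt.2 ⟨by linarith, by linarith⟩⟩
    · have q := PP14_bg h
      cases e <;> simp only [sge, Bool.false_eq_true, if_false, if_true] at q ⊢ <;>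
        push_cast at q <;>
        exact ⟨by linarith, by linarith, lt_abs.2 (Or.inr (by linarith)),
          abs_lt.2 ⟨by linarith, by linarith⟩⟩

theorem PP14_outB (x : V) (ℓ : ℕ) (e : Bool) (v : V) (hv : v ∈ regL (outB x ℓ e).all) :
      (29 * ℓ < sge e * (v.1 - x.1) ∧ sge e * (v.1 - x.1) < 67 * ℓ ∧ 13 * ℓ < |v.2 - x.2| ∧
        |v.2 - x.2| < 19 * ℓ) ∨
      (61 * ℓ < sge e * (v.1 - x.1) ∧ sge e * (v.1 - x.1) < 67 * ℓ ∧ |v.2 - x.2| < 19 * ℓ) ∨
      (61 * ℓ < sge e * (v.1 - x.1) ∧ sge e * (v.1 - x.1) < 259 * ℓ ∧ |v.2 - x.2| < 3 * ℓ) ∨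
      (232 * ℓ < sge e * (v.1 - x.1) ∧ sge e * (v.1 - x.1) < 280 * ℓ ∧ |v.2 - x.2| < 24 * ℓ) := by
  have hℓ : (0 : ℤ) ≤ ℓ := Int.natCast_nonneg ℓ
  rcases PP14_mem hv with ⟨s, hs, t, ht, h⟩ | ⟨q, hq, h⟩
  · simp only [outB, List.mem_cons, List.not_mem_nil, or_false] at hs
    rcases hs with rfl | rfl | rfl | rfl
    · right; right; left
      cases e
      · have q := (PP14_dir ht h).2.2.1 rfl
        simp only [outB, sge, Bool.false_eq_true, if_false] at q ⊢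
        push_cast at q
        exact ⟨by linarith, by linarith, abs_lt.2 ⟨by linarith, by linarith⟩⟩
      · have q := (PP14_dir ht h).1 rfl
        simp only [outB, sge, if_true] at q ⊢
        push_cast at q
        exact ⟨by linarith, by linarith, abs_lt.2 ⟨by linarith, by linarith⟩⟩
    · left
      cases e
      · have q := (PP14_dir ht h).1 rfl
        simp only [outB, sge, Bool.false_eq_true, if_false] at q ⊢
        push_cast at q
        exact ⟨by linarith, by linarith, lt_abs.2 (Or.inr (by linarith)),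
          abs_lt.2 ⟨by linarith, by linarith⟩⟩
      · have q := (PP14_dir ht h).2.2.1 rfl
        simp only [outB, sge, if_true] at q ⊢
        push_cast at q
        exact ⟨by linarith, by linarith, lt_abs.2 (Or.inr (by linarith)),
          abs_lt.2 ⟨by linarith, by linarith⟩⟩
    · right; left
      have q := (PP14_dir ht h).2.2.2 rfl
      cases e <;> simp only [outB, sge, Bool.false_eq_true, if_false, if_true] at q ⊢ <;>
        push_cast at q <;>
        exact ⟨by linarith, by linarith, abs_lt.2 ⟨by linarith, by linarith⟩⟩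
    · left
      cases e
      · have q := (PP14_dir ht h).2.2.1 rfl
        simp only [outB, sge, Bool.false_eq_true, if_false] at q ⊢
        push_cast at q
        exact ⟨by linarith, by linarith, lt_abs.2 (Or.inl (by linarith)),
          abs_lt.2 ⟨by linarith, by linarith⟩⟩
      · have q := (PP14_dir ht h).1 rfl
        simp only [outB, sge, if_true] at q ⊢
        push_cast at q
        exact ⟨by linarith, by linarith, lt_abs.2 (Or.inl (by linarith)),
          abs_lt.2 ⟨by linarith, by linarith⟩⟩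
  · simp only [outB, List.mem_cons, List.not_mem_nil, or_false] at hq
    right; right; right
    subst hq
    have q := PP14_bg h
    cases e <;> simp only [sge, Bool.false_eq_true, if_false, if_true] at q ⊢ <;>
      push_cast at q <;>
      exact ⟨by linarith, by linarith, abs_lt.2 ⟨by linarith, by linarith⟩⟩

theorem PP14_midX (x : V) (ℓ S : ℕ) (e : Bool) (hS : 16 ≤ S) (v : V)
    (hv : v ∈ regL (midX x ℓ S e).all) :
    29 * ℓ < v.1 - x.1 ∧ v.1 - x.1 < 32 * S * ℓ - 29 * ℓ ∧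
      13 * ℓ < sge e * (v.2 - x.2) ∧ sge e * (v.2 - x.2) < 19 * ℓ := by
  have hℓ : (0 : ℤ) ≤ ℓ := Int.natCast_nonneg ℓ
  have hN : ((16 * S - 32 : ℕ) : ℤ) = 16 * S - 32 := by omega
  rcases PP14_mem hv with ⟨s, hs, t, ht, h⟩ | ⟨q, hq, h⟩
  · simp only [midX, List.mem_cons, List.not_mem_nil, or_false] at hs
    subst hs
    have q := (PP14_dir ht h).1 rfl
    rw [hN] at q
    cases e <;> simp only [midX, sge, Bool.false_eq_true, if_false, if_true] at q ⊢ <;>
      exact ⟨by linarith, by linarith, by linarith, by linarith⟩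
  · simp only [midX, List.not_mem_nil] at hq

theorem PP14_big {ℓ S : ℕ} (hS : 16 ≤ S) : 16 * (ℓ : ℤ) ≤ S * ℓ ∧
    256 * ((S : ℤ) * ℓ) ≤ S ^ 3 * ℓ := by
  have h1 : (16 : ℤ) ≤ S := by exact_mod_cast hS
  have hℓ : (0 : ℤ) ≤ ℓ := Int.natCast_nonneg ℓ
  have h2 : (256 : ℤ) ≤ S ^ 2 := by nlinarith
  have h3 : 256 * (S : ℤ) ≤ S ^ 3 := by nlinarith
  constructor
  · nlinarith
  · calc 256 * ((S : ℤ) * ℓ) = (256 * S) * ℓ := by ring
      _ ≤ S ^ 3 * ℓ := by gcongr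

theorem PP14_N {S : ℕ} (hS : 16 ≤ S) : ((16 * S ^ 3 - 32 * S : ℕ) : ℤ) = 16 * (S : ℤ) ^ 3 - 32 * S ∧
    ((8 * (S ^ 3 - 1) : ℕ) : ℤ) = 8 * ((S : ℤ) ^ 3 - 1) ∧
    ((16 * S - 16 : ℕ) : ℤ) = 16 * S - 16 ∧ ((32 * S - 16 : ℕ) : ℤ) = 32 * S - 16 := by
  have h2 : 256 * S ≤ S ^ 3 := by
    calc 256 * S = 16 * 16 * S := by ring
      _ ≤ S * S * S := by gcongr
      _ = S ^ 3 := by ring
  refine ⟨?_, ?_, by omega, by omega⟩
  · rw [Nat.cast_sub (by omega)]
    push_cast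
    ring
  · rw [Nat.cast_mul, Nat.cast_sub (by omega)]
    push_cast
    ring

theorem PP14_midY (x : V) (ℓ S : ℕ) (e : Bool) (hS : 16 ≤ S) (hl : 1 ≤ ℓ) (v : V)
    (hv : v ∈ regL (midY x ℓ S e).all) :
      (32 * S * ℓ + 29 * ℓ < v.1 - x.1 ∧ v.1 - x.1 < 64 * S * ℓ + 3 * ℓ ∧
        13 * ℓ < sge e * (v.2 - x.2) ∧ sge e * (v.2 - x.2) < 19 * ℓ) ∨
      (64 * S * ℓ - 3 * ℓ < v.1 - x.1 ∧ v.1 - x.1 < 64 * S * ℓ + 3 * ℓ ∧
        13 * ℓ < sge e * (v.2 - x.2) ∧ sge e * (v.2 - x.2) < 16 * S ^ 3 * ℓ + 3 * ℓ) ∨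
      (64 * S * ℓ - 3 * ℓ < v.1 - x.1 ∧ v.1 - x.1 < 32 * S ^ 3 * ℓ + 3 * ℓ ∧
        16 * S ^ 3 * ℓ - 3 * ℓ < sge e * (v.2 - x.2) ∧
        sge e * (v.2 - x.2) < 16 * S ^ 3 * ℓ + 3 * ℓ) ∨
      (29 * S ^ 3 * ℓ < v.1 - x.1 ∧ v.1 - x.1 < 35 * S ^ 3 * ℓ ∧
        13 * S ^ 3 * ℓ < sge e * (v.2 - x.2) ∧ sge e * (v.2 - x.2) < 19 * S ^ 3 * ℓ) := by
  have hℓ : (1 : ℤ) ≤ ℓ := by exact_mod_cast hl
  obtain ⟨n1, n2, n3, n4⟩ := PP14_N hS
  obtain ⟨b1, b2⟩ := PP14_big (ℓ := ℓ) hS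
  rcases PP14_mem hv with ⟨s, hs, t, ht, h⟩ | ⟨q, hq, h⟩
  · simp only [midY, List.mem_cons, List.not_mem_nil, or_false] at hs
    rcases hs with rfl | rfl | rfl
    · right; right; left
      have q := (PP14_dir ht h).1 rfl
      simp only [midY] at q
      rw [n1] at q
      cases e <;> simp only [sge, Bool.false_eq_true, if_false, if_true] at q ⊢ <;>
        exact ⟨by linarith, by linarith, by linarith, by linarith⟩
    · right; left
      cases e
      · have q := (PP14_dir ht h).2.2.2 rfl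
        simp only [midY] at q
        rw [n2] at q
        simp only [sge, Bool.false_eq_true, if_false] at q ⊢
        exact ⟨by linarith, by linarith, by linarith, by linarith⟩
      · have q := (PP14_dir ht h).2.1 rfl
        simp only [midY] at q
        rw [n2] at q
        simp only [sge, if_true] at q ⊢
        exact ⟨by linarith, by linarith, by linarith, by linarith⟩
    · left
      have q := (PP14_dir ht h).1 rfl
      simp only [midY] at q
      rw [n3] at q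
      cases e <;> simp only [sge, Bool.false_eq_true, if_false, if_true] at q ⊢ <;>
        exact ⟨by linarith, by linarith, by linarith, by linarith⟩
  · simp only [midY, List.mem_cons, List.not_mem_nil, or_false] at hq
    subst hq
    right; right; right
    have q := PP14_bg h
    push_cast at q
    cases e <;> simp only [sge, Bool.false_eq_true, if_false, if_true] at q ⊢ <;>
      exact ⟨by linarith, by linarith, by linarith, by linarith⟩

theorem PP14_midZ (x : V) (ℓ S : ℕ) (e : Bool) (hS : 16 ≤ S) (hl : 1 ≤ ℓ) (v : V)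
    (hv : v ∈ regL (midZ x ℓ S e).all) :
      (29 * ℓ < x.1 - v.1 ∧ x.1 - v.1 < 64 * S * ℓ + 3 * ℓ ∧
        13 * ℓ < sge e * (v.2 - x.2) ∧ sge e * (v.2 - x.2) < 19 * ℓ) ∨
      (64 * S * ℓ - 3 * ℓ < x.1 - v.1 ∧ x.1 - v.1 < 64 * S * ℓ + 3 * ℓ ∧
        13 * ℓ < sge e * (v.2 - x.2) ∧ sge e * (v.2 - x.2) < 16 * S ^ 3 * ℓ + 3 * ℓ) ∨
      (64 * S * ℓ - 3 * ℓ < x.1 - v.1 ∧ x.1 - v.1 < 32 * S ^ 3 * ℓ + 3 * ℓ ∧
        16 * S ^ 3 * ℓ - 3 * ℓ < sge e * (v.2 - x.2) ∧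
        sge e * (v.2 - x.2) < 16 * S ^ 3 * ℓ + 3 * ℓ) ∨
      (29 * S ^ 3 * ℓ < x.1 - v.1 ∧ x.1 - v.1 < 35 * S ^ 3 * ℓ ∧
        13 * S ^ 3 * ℓ < sge e * (v.2 - x.2) ∧ sge e * (v.2 - x.2) < 19 * S ^ 3 * ℓ) := by
  have hℓ : (1 : ℤ) ≤ ℓ := by exact_mod_cast hl
  obtain ⟨n1, n2, n3, n4⟩ := PP14_N hS
  obtain ⟨b1, b2⟩ := PP14_big (ℓ := ℓ) hS
  rcases PP14_mem hv with ⟨s, hs, t, ht, h⟩ | ⟨q, hq, h⟩
  · simp only [midZ, List.mem_cons, List.not_mem_nil, or_false] at hs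
    rcases hs with rfl | rfl | rfl
    · right; right; left
      have q := (PP14_dir ht h).2.2.1 rfl
      simp only [midZ] at q
      rw [n1] at q
      cases e <;> simp only [sge, Bool.false_eq_true, if_false, if_true] at q ⊢ <;>
        exact ⟨by linarith, by linarith, by linarith, by linarith⟩
    · right; left
      cases e
      · have q := (PP14_dir ht h).2.2.2 rfl
        simp only [midZ] at q
        rw [n2] at q
        simp only [sge, Bool.false_eq_true, if_false] at q ⊢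
        exact ⟨by linarith, by linarith, by linarith, by linarith⟩
      · have q := (PP14_dir ht h).2.1 rfl
        simp only [midZ] at q
        rw [n2] at q
        simp only [sge, if_true] at q ⊢
        exact ⟨by linarith, by linarith, by linarith, by linarith⟩
    · left
      have q := (PP14_dir ht h).2.2.1 rfl
      simp only [midZ] at q
      rw [n4] at q
      cases e <;> simp only [sge, Bool.false_eq_true, if_false, if_true] at q ⊢ <;>
        exact ⟨by linarith, by linarith, by linarith, by linarith⟩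
  · simp only [midZ, List.mem_cons, List.not_mem_nil, or_false] at hq
    subst hq
    right; right; right
    have q := PP14_bg h
    push_cast at q
    cases e <;> simp only [sge, Bool.false_eq_true, if_false, if_true] at q ⊢ <;>
      exact ⟨by linarith, by linarith, by linarith, by linarith⟩

theorem PP14 : PP14_stmt := by
  intro x ℓ S e hl hS
  exact ⟨PP14_hubB x ℓ e, PP14_outB x ℓ e, PP14_midX x ℓ S e hS, PP14_midY x ℓ S e hS hl,
    PP14_midZ x ℓ S e hS hl⟩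

end TP
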