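import Pool.Agent.helper33.SP.SpecC1S
import Pool.Agent.helper98.SP.SpecGA

/-!
# Project sp, piece C2S: the weak pair pattern is rare for the spectral sample (`U2ii_stmt`)

Modules `VA1` ... `VA22`, file `Pool/Agent/<seat>/SP/VA1.lean`, `theorem VA1 ... : VA1_stmt`.

A BLOCK around `z` with exponent `p`: inner gate `(2 ^ (p - g - 1), 2 ^ (p - 1))`, zone of coins
`Ag z p h = {2 ^ p < sd z v < 2 ^ (p + h)}`, outer gate `(2 ^ (p + h + 1), 2 ^ (p + h + g + 1))` (the same
geometry as in `SpecC1S` with `m = h`). `fI z p` = the coins at distance at most `2 ^ p`. Weight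
`wpar = 1/2 1[gates] 1[four arms through] P(four arms through | zone resampled, inside flipped)`.

Given the coins outside the zone and the event `four arms through`, `f = pmf (Fc i)` is a function of
the bit of the inner gate (`UJ12`); flipping the inside negates the bit (`DUAL_stmt`). Hence the average
over the zone of `wpar * f` plus its flipped version is `av (wpar) * gK`, where `gK` (`f` with outer bit
one plus `f` with outer bit zero) does not depend on the inside (`VA6`). With one block around `x`, one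
around `y` and one around both (outside of the pattern), `av W (dl U1 (dl U2 (weights * f)))` is odd
under the flip of the coins `O1` around `x`, odd under the flip of the coins `O2` around `y`, and odd
under both flips together, so it is zero (`VA10`). The rest has no block in one of the three annuli.
-/

namespace TP

open DP MeasureTheory

/-! ## Definitions -/

open Classical in
/-- Flip the coins in `B`. -/
noncomputable def flp (B : Set V) (b : V → Bool) : V → Bool :=
  fun v => if v ∈ B then !(b v) else b v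

/-- The coins inside the zone. -/
def fI (z : V) (p : ℕ) : Set V := {v | sd z v ≤ 2 ^ p}

/-- Conditional probability of `E` given the coins outside `A`. -/
noncomputable def cpr (A : Set V) (E : Set (V → Bool)) (b : V → Bool) : ℝ :=
  Pr {b' | mx A b b' ∈ E}

/-- The weight of a block. -/
noncomputable def wpar (z : V) (p h g : ℕ) (b : V → Bool) : ℝ :=
  1 / 2 * (gts z p h g ∩ thr z p h g).indicator 1 b *
    cpr (Ag z p h) (thr z p h g) (flp (fI z p) b)

open Classical in
/-- `2 * 1 - 1` of the crossing event, as a function of the colouring. -/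
noncomputable def pmc (i : ℕ) (c : V → Bool) : ℝ :=
  if hcross c true 1 (2 * 2 ^ i) 0 (hh (2 ^ i)) then 1 else -1

/-- Outer bit one plus outer bit zero. -/
noncomputable def gK (i : ℕ) (z : V) (p h : ℕ) (b : V → Bool) : ℝ :=
  pmc i (ins (col b) z (2 ^ (p + h + 1)) true) + pmc i (ins (col b) z (2 ^ (p + h + 1)) false)

/-- Exponent of the block number `j` above scale `P`. -/
def zx (g h P j : ℕ) : ℕ := P + g + 8 + j * (2 * g + h + 10)

/-- Weight of the block number `j` of the family `(z, P)`. -/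
noncomputable def wf (z : V) (g h P j : ℕ) (b : V → Bool) : ℝ := wpar z (zx g h P j) h g b

/-- Block `j` and no block further outside. -/
noncomputable def Rf (z : V) (g h P J j : ℕ) (b : V → Bool) : ℝ :=
  wf z g h P j b * ∏ l ∈ Finset.Ioo j J, (1 - wf z g h P l b)

/-- No block. -/
noncomputable def Nf (z : V) (g h P J : ℕ) (b : V → Bool) : ℝ :=
  ∏ l ∈ Finset.range J, (1 - wf z g h P l b)

/-- The product of three terms: around `x`, around `y`, around both. -/
noncomputable def R3 (x y : V) (g h P P' J j k l : ℕ) (b : V → Bool) : ℝ :=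
  Rf x g h P J j b * Rf y g h P J k b * Rf x g h P' J l b

/-- Some annulus has no block. -/
noncomputable def Q3 (x y : V) (g h P P' J : ℕ) (b : V → Bool) : ℝ :=
  1 - (1 - Nf x g h P J b) * (1 - Nf y g h P J b) * (1 - Nf x g h P' J b)

/-- The geometry of the pattern: `y` at distance `2 ^ (p + m + s)` from `x`, all radii dyadic, `J`
blocks fit into every annulus, everything is inside the square. -/
structure Geo (i N t p m s g h J : ℕ) (x y : V) : Prop where
  even : (x.1 + x.2) % 2 = 0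
  y_eq : y = (x.1 + 2 ^ (p + m + s), x.2) ∨ y = (x.1, x.2 + 2 ^ (p + m + s))
  hs : 4 ≤ s
  hg : 1 ≤ g
  hh : 1 ≤ h
  ht : 1 ≤ t ∧ t + 4 ≤ p
  hJ : J * (2 * g + h + 10) + 13 ≤ m
  hN : p + m + 3 * s + m ≤ N
  sub : box x (2 ^ N) ⊆ rect 1 (2 * 2 ^ i) 0 (TP.hh (2 ^ i))

/-- The averaged coins. -/
def Wc (x y : V) (p m s : ℕ) : Set V := WW x y (2 ^ (p + 2)) (2 ^ (p + m + 3 * s + m - 2))

/-- The box around `x` which is hit. -/
def U1c (x : V) (t : ℕ) : Set V := {v | sd x v ≤ 2 ^ t}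

/-- The box around `y` which is hit. -/
def U2c (y : V) (p : ℕ) : Set V := {v | sd y v < 2 ^ (p + 2)}

/-! ## Flips and averages -/

/-- The coin law is invariant under flips; averages commute with flips. -/
def VA1_stmt : Prop :=
  (∀ (B : Set V) (F : Set (V → Bool)), (∃ Λ : Finset V, DP.Dep F (Λ : Set V)) →
    Pr {b | flp B b ∈ F} = Pr F) ∧
  (∀ (B U : Set V) (g : (V → Bool) → ℝ) (b : V → Bool), FinR g →
    av U (fun b => g (flp B b)) b = av U g (flp B b)) ∧
  (∀ (B U : Set V) (g : (V → Bool) → ℝ) (b : V → Bool), B ⊆ U → av U g (flp B b) = av U g b) ∧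
  (∀ (B : Set V) (b : V → Bool), flp B (flp B b) = b) ∧
  (∀ (B B' : Set V) (b : V → Bool), Disjoint B B' → flp (B ∪ B') b = flp B (flp B' b)) ∧
  ∀ (B : Set V) (g : (V → Bool) → ℝ), FinR g → FinR fun b => g (flp B b)

/-- ODDNESS (abstract). Let `H = av A g`, `K = dl U1 (dl U2 H)`. `dl` commutes with flips, so
`K b + K (flp B b) = dl U1 (dl U2 N) b = 0` (`N` does not depend on the coins in `U1` or in `U2`).
`av W (dl U1 (dl U2 g)) = av (W \ A) K` (averages over disjoint sets commute, `UJ5`); `av (W \ A) K`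
does not depend on the coins in `W \ A ⊇ B ∩ W`, so its value at `flp (B \ W) b` is its value at
`flp B b`, which is `av (W \ A) (fun b => K (flp B b)) b = - av (W \ A) K b`. -/
def VA2_stmt : Prop :=
  ∀ (W A B U1 U2 : Set V) (g N : (V → Bool) → ℝ), FinR g → A ⊆ W → Disjoint A B →
    Disjoint U1 W → Disjoint U2 W → Disjoint U1 U2 →
    ((∀ b b' : V → Bool, (∀ v, v ∉ U1 → b v = b' v) → N b = N b') ∨
      (∀ b b' : V → Bool, (∀ v, v ∉ U2 → b v = b' v) → N b = N b')) →
    (∀ b, av A g b + av A g (flp B b) = N b) →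
      ∀ b, av W (dl U1 (dl U2 g)) (flp (B \ W) b) = - av W (dl U1 (dl U2 g)) b

/-! ## The bit -/

/-- Forcing the inside of a gate. `ins c z m true`: every site of `bd z m` has a neighbour at distance
`m - 1` from `z` (the centre has even sum, so the corners have diagonal neighbours) and the inside is
black and connected: the two crossing clusters are connected. `ins c z m false`: a black path in
`box z n` stays in the annulus. (`Gate` does not see the inside.) -/
def VA3_stmt : Prop :=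
  ∀ (c : V → Bool) (z : V) (m n : ℕ), Even (z.1 + z.2) → 1 ≤ m → m < n → Gate c z m n →
    hb (ins c z m true) z m n ∧ ¬ hb (ins c z m false) z m n

/-- Deterministic key. `b₁` is `b` outside the zone, `b₂` is `b` with the inside flipped outside the
zone, both have four arms through. The outer bit of `col b₁` is its inner bit (`UJ9`), the outer bit
of `col b₂` is its inner bit, which is the negation (`DUAL_stmt`: in `box z (2 ^ (p - 1))` one has
`col b₂ = fl (col b₁)`). Outside of the outer gate the colourings agree with `col b`; `VA3` and the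
transfer `UJ10` (end points of crossings of the rectangle are at distance `≥ 2 ^ N` from `z`) give that
one of `pmf (Fc i) b₁`, `pmf (Fc i) b₂` is `pmc i (ins .. true)` and the other one `pmc i (ins .. false)`. -/
def VA4_stmt : Prop :=
  ∀ (i N p h g : ℕ) (z : V) (b b₁ b₂ : V → Bool), (z.1 + z.2) % 2 = 0 → g + 4 ≤ p → 1 ≤ g →
    1 ≤ h → p + h + g + 1 ≤ N → box z (2 ^ N) ⊆ rect 1 (2 * 2 ^ i) 0 (hh (2 ^ i)) →
    b ∈ gts z p h g → (∀ v, v ∉ Ag z p h → b₁ v = b v) →
    (∀ v, v ∉ Ag z p h → b₂ v = flp (fI z p) b v) → b₁ ∈ thr z p h g → b₂ ∈ thr z p h g →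
      pmf (Fc i) b₁ + pmf (Fc i) b₂ = gK i z p h b

/-- Basic properties of `gts`, `thr`, `cpr`, `gK` under flips: `gts` is invariant under the flip of the
inside (`GD1_stmt`), under changes of the zone; `thr` is invariant under the flip of all coins of the
block; `cpr` does not depend on the zone; `gK` depends only on the coins at distance more than
`2 ^ (p + h)`; everything depends on finitely many coins. -/
def VA5_stmt : Prop :=
  ∀ (z : V) (p h g : ℕ), (z.1 + z.2) % 2 = 0 → g + 4 ≤ p → 1 ≤ g → 1 ≤ h →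
    (∀ b, flp (fI z p) b ∈ gts z p h g ↔ b ∈ gts z p h g) ∧
    (∀ b b', (∀ v, v ∉ Ag z p h → b v = b' v) → (b ∈ gts z p h g ↔ b' ∈ gts z p h g)) ∧
    (∀ (B : Set V) b, (∀ v, 2 ^ (p - g - 2) < sd z v → sd z v < 2 ^ (p + h + g + 2) → v ∈ B) →
      (flp B b ∈ gts z p h g ↔ b ∈ gts z p h g) ∧ (flp B b ∈ thr z p h g ↔ b ∈ thr z p h g)) ∧
    (∀ (E : Set (V → Bool)) b b', (∀ v, v ∉ Ag z p h → b v = b' v) →
      cpr (Ag z p h) E b = cpr (Ag z p h) E b') ∧
    (∀ i : ℕ, FinR (gK i z p h) ∧ ∀ b b' : V → Bool, (∀ v, 2 ^ (p + h) < sd z v → b v = b' v) →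
      gK i z p h b = gK i z p h b') ∧
    FinR (wpar z p h g)

/-- THE IDENTITY. Let `b ∈ gts`. `av (Ag) (wpar * f) b = 1/2 cpr thr (flp b) av (1_thr f) b`; on
`{b₁ = b off the zone, b₁ ∈ thr}` the function `f` is constant `= f_b` (`VA4` twice with the same `b₂`,
if there is such a `b₂`; otherwise both sides vanish), so this is
`1/2 cpr thr (flp b) cpr thr b f_b`; the same for `flp (fI z p) b`; `f_b + f_(flp b) = gK b` by `VA4`. -/
def VA6_stmt : Prop :=
  ∀ (i N p h g : ℕ) (z : V), (z.1 + z.2) % 2 = 0 → g + 4 ≤ p → 1 ≤ g → 1 ≤ h →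
    p + h + g + 1 ≤ N → box z (2 ^ N) ⊆ rect 1 (2 * 2 ^ i) 0 (hh (2 ^ i)) → ∀ b,
      av (Ag z p h) (fun b => wpar z p h g b * pmf (Fc i) b) b +
        av (Ag z p h) (fun b => wpar z p h g b * pmf (Fc i) b) (flp (fI z p) b) =
          av (Ag z p h) (wpar z p h g) b * gK i z p h b

/-! ## Properties of the weights -/

/-- Values, locality (colours), dependence (coins), invariance under the flip of the whole block
(`VA5` and the flip invariance of `Pr`), and `av` of the weight does not depend on coins outside the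
block. -/
def VA7_stmt : Prop :=
  ∀ (z : V) (p h g : ℕ), (z.1 + z.2) % 2 = 0 → g + 4 ≤ p → 1 ≤ g → 1 ≤ h →
    (∀ b, 0 ≤ wpar z p h g b ∧ wpar z p h g b ≤ 1 / 2) ∧
    LocF (wpar z p h g) (ann z (2 ^ (p - g - 1)) (2 ^ (p + h + g + 1))) ∧
    (∀ b b' : V → Bool,
      (∀ v, 2 ^ (p - g - 2) < sd z v → sd z v < 2 ^ (p + h + g + 2) → b v = b' v) →
        wpar z p h g b = wpar z p h g b' ∧
          av (Ag z p h) (wpar z p h g) b = av (Ag z p h) (wpar z p h g) b') ∧
    ∀ (B : Set V) b, (∀ v, 2 ^ (p - g - 2) < sd z v → sd z v < 2 ^ (p + h + g + 2) → v ∈ B) →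
      wpar z p h g (flp B b) = wpar z p h g b

/-- Telescoping: `∑ j < J, Rf j = 1 - Nf`, hence the sum of the `R3` is `1 - Q3`; bounds. -/
def VA8_stmt : Prop :=
  ∀ (x y : V) (g h P P' J : ℕ) (b : V → Bool),
    (∑ j ∈ Finset.range J, Rf x g h P J j b = 1 - Nf x g h P J b) ∧
    (∑ j ∈ Finset.range J, ∑ k ∈ Finset.range J, ∑ l ∈ Finset.range J, R3 x y g h P P' J j k l b =
      1 - Q3 x y g h P P' J b) ∧
    ((∀ z P l b, 0 ≤ wf z g h P l b ∧ wf z g h P l b ≤ 1 / 2) →
      0 ≤ Q3 x y g h P P' J b ∧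
        Q3 x y g h P P' J b ≤ Nf x g h P J b + Nf y g h P J b + Nf x g h P' J b)

/-- Geometry of the blocks (`Geo`). The block intervals `2 ^ (zx - g - 2) < sd z v < 2 ^ (zx + h + g + 2)`
of one family are disjoint; the blocks of the three families are disjoint from each other, from `U1c`
and `U2c`, contained in `Wc`; the inside `fI` of a block of the family around `x` (scale `p + 3`) does not
meet the blocks further outside, the blocks around `y` and the outer blocks; the inside of an outer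
block contains the blocks of the first two families; the coins of `fI` outside `Wc` are
`{sd x v < 2 ^ (p + 2)}`, `{sd y v < 2 ^ (p + 2)}`, resp. both. Stated with
`bl z q = {v | 2 ^ (q - g - 2) < sd z v ∧ sd z v < 2 ^ (q + h + g + 2)}`. -/
def VA9_stmt : Prop :=
  ∀ (i N t p m s g h J : ℕ) (x y : V), Geo i N t p m s g h J x y →
    ∀ bl : V → ℕ → Set V,
      (bl = fun z q => {v | 2 ^ (q - g - 2) < sd z v ∧ sd z v < 2 ^ (q + h + g + 2)}) →
    (∀ j < J, bl x (zx g h (p + 3) j) ⊆ Wc x y p m s ∧ bl y (zx g h (p + 3) j) ⊆ Wc x y p m s ∧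
      bl x (zx g h (p + m + 3 * s) j) ⊆ Wc x y p m s) ∧
    (∀ (z : V) (P j l : ℕ), j < l →
      Disjoint (bl z (zx g h P j)) (bl z (zx g h P l)) ∧
        Disjoint (fI z (zx g h P j)) (bl z (zx g h P l)) ∧
        Ag z (zx g h P j) h ⊆ bl z (zx g h P j)) ∧
    (∀ j < J, ∀ l < J,
      Disjoint (fI x (zx g h (p + 3) j) ∪ bl x (zx g h (p + 3) j)) (bl y (zx g h (p + 3) l)) ∧
      Disjoint (fI y (zx g h (p + 3) j) ∪ bl y (zx g h (p + 3) j)) (bl x (zx g h (p + 3) l)) ∧
      Disjoint (fI x (zx g h (p + 3) j) ∪ bl x (zx g h (p + 3) j))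
        (bl x (zx g h (p + m + 3 * s) l)) ∧
      Disjoint (fI y (zx g h (p + 3) j) ∪ bl y (zx g h (p + 3) j))
        (bl x (zx g h (p + m + 3 * s) l)) ∧
      bl x (zx g h (p + 3) j) ⊆ fI x (zx g h (p + m + 3 * s) l) ∧
      bl y (zx g h (p + 3) j) ⊆ fI x (zx g h (p + m + 3 * s) l)) ∧
    (∀ j < J, fI x (zx g h (p + 3) j) \ Wc x y p m s = {v | sd x v < 2 ^ (p + 2)} ∧
      fI y (zx g h (p + 3) j) \ Wc x y p m s = {v | sd y v < 2 ^ (p + 2)} ∧
      fI x (zx g h (p + m + 3 * s) j) \ Wc x y p m s =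
        {v | sd x v < 2 ^ (p + 2)} ∪ {v | sd y v < 2 ^ (p + 2)}) ∧
    Disjoint {v | sd x v < 2 ^ (p + 2)} {v | sd y v < 2 ^ (p + 2)} ∧
    U1c x t ⊆ {v | sd x v < 2 ^ (p + 2)} ∧
    Disjoint {v | sd x v < 2 ^ (p + 2)} (Wc x y p m s) ∧
    Disjoint {v | sd y v < 2 ^ (p + 2)} (Wc x y p m s)

/-! ## Exact zero -/

/-- EXACT ZERO. Put `g = R3 * f`, `M = av W (dl U1 (dl U2 g))`. `VA2` three times:
(1) `A = Ag x (zx (p + 3) j) h`, `B = fI x (zx (p + 3) j)`:
`av A g = (∏ l > j, (1 - wf x l)) * Rf y * Rf x' * av A (wf x j * f)`, the first factors neither depend on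
the coins in `A` nor change under the flip of `B` (`VA9`), so by `VA6` `N` is their product with
`av A (wf x j) * gK`, which does not depend on the coins in `U1`; conclusion: `M` is odd under the flip
of `O1 = {sd x v < 2 ^ (p + 2)}`. (2) the same around `y` (`N` does not depend on the coins in `U2`):
odd under the flip of `O2 = {sd y v < 2 ^ (p + 2)}`. (3) the outer block: the factors of the first two
families are invariant under the flip of `B` because `B` contains their blocks (`VA7`); `N` does not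
depend on the coins in `U1`: odd under the flip of `O1 ∪ O2`. `flp (O1 ∪ O2) = flp O1 ∘ flp O2`, so
`M = - M`. -/
def VA10_stmt : Prop :=
  ∀ (i N t p m s g h J : ℕ) (x y : V), Geo i N t p m s g h J x y → ∀ j < J, ∀ k < J, ∀ l < J,
    ∀ b, av (Wc x y p m s) (dl (U1c x t) (dl (U2c y p)
      (fun b => R3 x y g h (p + 3) (p + m + 3 * s) J j k l b * pmf (Fc i) b))) b = 0

/-- From `VA8`, `VA10` and linearity (`UJ5`). -/
def VA11_stmt : Prop :=
  ∀ (i N t p m s g h J : ℕ) (x y : V), Geo i N t p m s g h J x y → ∀ b,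
    av (Wc x y p m s) (dl (U1c x t) (dl (U2c y p) (pmf (Fc i)))) b =
      av (Wc x y p m s) (dl (U1c x t) (dl (U2c y p)
        (fun b => Q3 x y g h (p + 3) (p + m + 3 * s) J b * pmf (Fc i) b))) b

/-! ## The bad part -/

/-- The arms inside the averaged region. -/
def EW (x y : V) (p m s : ℕ) : Set (V → Bool) :=
  F4 x (p + 3) (p + m) ∩ (F4 y (p + 3) (p + m) ∩ F4 x (p + m + 3 * s) (p + m + 3 * s + m - 3))

/-- The arms outside the averaged region. -/
def EO (x : V) (N t p m s : ℕ) : Set (V → Bool) :=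
  F4 x (t + 1) (p + 1) ∩ F4 x (p + m + 3 * s + m - 1) N

/-- Pointwise bound. `Q3` does not depend on the coins in `U1c`, `U2c` (`VA9`), so it can be taken out of
`dl (U1c) (dl (U2c) ·)`. If `dl U1 (dl U2 f) b ≠ 0` there is `b₁ = b` off `U2` with `dl U1 f b₁ ≠ 0`
(`dl U1` and `dl U2` commute), hence by `UI1` four arms around `x` for `b₁` (as in `UJ15`), and
`b₂ = b` off `U1` with `dl U2 f b₂ ≠ 0`, hence four arms around `y` from `2 ^ (p + 2) + 1` to
`2 ^ (p + m)` for `b₂`; the restrictions to the annuli in question do not see the coins of `U2`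
resp. `U1`. `|dl U1 (dl U2 f)| ≤ 4`. -/
def VA12_stmt : Prop :=
  ∀ (i N t p m s g h J : ℕ) (x y : V), Geo i N t p m s g h J x y → ∀ b,
    |dl (U1c x t) (dl (U2c y p)
      (fun b => Q3 x y g h (p + 3) (p + m + 3 * s) J b * pmf (Fc i) b)) b| ≤
      4 * Q3 x y g h (p + 3) (p + m + 3 * s) J b *
        (EW x y p m s ∩ EO x N t p m s).indicator 1 b

/-- Square integral. By `VA12` `|av W (...)| ≤ 4 * 1_EO * av W (Q3 * 1_EW)` (`EO` depends on coins outside
`Wc`), and `Q3 * 1_EW` depends only on coins in `Wc`, so its average over `Wc` is its integral. -/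
def VA13_stmt : Prop :=
  ∀ (i N t p m s g h J : ℕ) (x y : V), Geo i N t p m s g h J x y →
    ∫ b, (av (Wc x y p m s) (dl (U1c x t) (dl (U2c y p) (pmf (Fc i)))) b) ^ 2 ∂P1 ≤
      16 * EZ (Q3 x y g h (p + 3) (p + m + 3 * s) J) (EW x y p m s) ^ 2 * Pr (EO x N t p m s)

/-- Independence: the three annuli of `EW` are brick-disjoint, as well as the two annuli of `EO`
(`VA8`, `VA7`, `K.WI_stmt`, `K.LQ_stmt`; translation `UI7` for the second part). -/
def VA14_stmt : Prop :=
  ∀ (i N t p m s g h J : ℕ) (x y : V), Geo i N t p m s g h J x y →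
    EZ (Q3 x y g h (p + 3) (p + m + 3 * s) J) (EW x y p m s) ≤
      EZ (Nf x g h (p + 3) J) (F4 x (p + 3) (p + m)) * a4 (p + 3) (p + m) *
          a4 (p + m + 3 * s) (p + m + 3 * s + m - 3) +
        a4 (p + 3) (p + m) * EZ (Nf y g h (p + 3) J) (F4 y (p + 3) (p + m)) *
          a4 (p + m + 3 * s) (p + m + 3 * s + m - 3) +
        a4 (p + 3) (p + m) * a4 (p + 3) (p + m) *
          EZ (Nf x g h (p + m + 3 * s) J)
            (F4 x (p + m + 3 * s) (p + m + 3 * s + m - 3)) ∧
    Pr (EO x N t p m s) ≤ a4 (t + 1) (p + 1) * a4 (p + m + 3 * s + m - 1) N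

/-! ## Lower bound of the weight -/

/-- The gates. -/
def gIn (z : V) (p g : ℕ) : Set (V → Bool) :=
  Ev fun c => Gate c z (2 ^ (p - g - 1)) (2 ^ (p - 1))

/-- The outer gate. -/
def gOut (z : V) (p h g : ℕ) : Set (V → Bool) :=
  Ev fun c => Gate c z (2 ^ (p + h + 1)) (2 ^ (p + h + g + 1))

/-- QUARTER TURN. Arms whose flipped version is standard (black near top and bottom, white near right
and left) can be continued to standard arms at the next radius. From `SE2_stmt` (`ρ = 0`,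
`D = Dfree true z (2 ^ a)`, `d = 1`, `e = 4`): the flipped event is contained in the union over the
4-tuples `y` of points of a net of mesh `2 ^ (i - h)` of `bd z (2 ^ i)`, `y l` within `2 ^ (i - 6)` of
`zpt z (2 ^ i) (l + 1)`, of the events `Mrk c 4 true z (2 ^ i) D y (2 ^ (i - h)) (2 ^ (i - 4))`; the
number of tuples is bounded. -/
def VA15_stmt : Prop :=
  ∃ C : ℝ, 0 < C ∧ ∃ i₁ : ℕ, ∀ (z : V) (a i : ℕ) (X : Set (V → Bool)), Even (z.1 + z.2) →
    i₁ ≤ i → a + 1 ≤ i → Loc X (box z (2 ^ (i - 1))) →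
      Pr (X ∩ {b | (fun v => !(b v)) ∈ S4 z a i}) ≤ C * Pr (X ∩ S4 z a (i + 1))

/-- Conditional probability of four arms through the flipped block, pointwise. Let `b̃ = flp (fI z p) b`,
`X` = the event that the coins (even sites) in `fI z p` are those of `b̃`, `Y` = the event that the coins
at distance at least `2 ^ (p + h)` which are seen by `ann z (2 ^ (p + h)) (2 ^ n)`, `n = p + h + g + 2`, are
those of `b` (both are local for the colours). `K.GP_stmt` with `D = Dfree true z (2 ^ (p - g - 1))`,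
`i = p + 4`: `c₄ Pr (X ∩ S4 z (p - g - 1) (p + 5)) Pr (Y ∩ B4 z (p + 6) n) ≤ Pr (X ∩ Y ∩ S4 z _ n)` and
`S4 z (p - g - 1) n ⊆ thr`; divide by `Pr X * Pr Y > 0`; `VA15`:
`Pr (X ∩ flipped S4 z (p - g - 1) (p + 4)) ≤ C Pr (X ∩ S4 z (p - g - 1) (p + 5))`, and the conditional
probability of the flipped event at `b̃` is that of `S4` at `b` (flip of all the coins). -/
def VA16_stmt : Prop :=
  ∃ c : ℝ, 0 < c ∧ ∃ k₀ : ℕ, ∀ (z : V) (p h g : ℕ) (b : V → Bool), (z.1 + z.2) % 2 = 0 →
    g + k₀ ≤ p → 8 ≤ h → 1 ≤ g →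
      c * (cpr (Ag z p h) (S4 z (p - g - 1) (p + 4)) b *
        cpr (Ag z p h) (B4 z (p + 6) (p + h + g + 2)) b) ≤
          cpr (Ag z p h) (thr z p h g) (flp (fI z p) b)

/-- Standard extension, conditionally (from `K.SX1_stmt` with `D = Dmark 4 z (2 ^ a)` and `X` = the
event that the coins in `fI z p` are given; the events depend only on coins in `fI z p ∪ Ag z p h`
at distance at most `2 ^ (p + 5) + 1`), and the inclusion of `B4` in `S4`. -/
def VA17_stmt : Prop :=
  (∃ c : ℝ, 0 < c ∧ ∃ k₀ : ℕ, ∀ (z : V) (p h a : ℕ) (b : V → Bool), (z.1 + z.2) % 2 = 0 →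
    k₀ ≤ p → 8 ≤ h → a + 1 ≤ p →
      c * cpr (Ag z p h) (B4 z a (p + 4)) b ≤ cpr (Ag z p h) (B4 z a (p + 5)) b) ∧
  ∃ k₀ : ℕ, ∀ (z : V) (a n : ℕ), (z.1 + z.2) % 2 = 0 → k₀ ≤ a → a + 1 ≤ n →
    B4 z (a - 1) n ⊆ S4 z a n

/-- Gates with standard arms (bounded ratios). First: `K.GSB_stmt` for `(p - g - 1, p - 1)` gives
`B4 z (p - g - 2) p ∩ gIn`, then `K.SX1_stmt` four times (`gIn` is local in `box z (2 ^ (p - 1))`). Second:
`K.GSB_stmt` for `(p + h + 1, p + h + g + 1)` gives `B4 z (p + h) (p + h + g + 2) ∩ gOut`, glued to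
`B4 z (p + 6) (p + h - 1)` by `K.GB_stmt` (`i + 1 = p + h - 1`), the latter by `K.BTH_stmt`
(`h = 14`). All `Pr (F4 ..)` of bounded ratio are bounded below (`K.QAA_stmt`, `UI7`). -/
def VA18_stmt : Prop :=
  ∃ (c : ℝ) (g k₀ : ℕ), 0 < c ∧ 1 ≤ g ∧ ∀ (z : V) (p : ℕ), (z.1 + z.2) % 2 = 0 → k₀ ≤ p →
    c ≤ Pr (gIn z p g ∩ B4 z (p - g - 2) (p + 4)) ∧
      c ≤ Pr (gOut z p 14 g ∩ B4 z (p + 6) (p + 14 + g + 2))

/-- LOWER BOUND of the weight. On `B4 z a n ∩ gts` (`a = p - g - 2`, `n = p + h + g + 2`, `h = 14`) one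
has `thr`, so `wpar ≥ c / 2 * Z * W` with `Z = 1_gIn * cpr (S4 z (p - g - 1) (p + 4))`,
`W = 1_gOut * cpr (B4 z (p + 6) n)` (`VA16`). `K.GB_stmt` (`i = p + 4`):
`EZ (Z W) (B4 z a n) ≥ c₄ EZ Z (B4 z a (p + 5)) EZ W (B4 z (p + 6) n)`.
`EZ W (B4 z (p + 6) n) = ∫ 1_gOut cpr (B4) ^ 2 ≥ Pr (gOut ∩ B4) ^ 2` (gates do not depend on the zone;
Cauchy-Schwarz), and with `VA17`
`EZ Z (B4 z a (p + 5)) = ∫ 1_gIn cpr (S4 .. (p + 4)) cpr (B4 z a (p + 5)) ≥ c ∫ 1_gIn cpr (B4 z a (p + 4)) ^ 2`
`≥ c Pr (gIn ∩ B4 z a (p + 4)) ^ 2`. `VA18`. -/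
def VA19_stmt : Prop :=
  ∃ (c : ℝ) (g k₀ : ℕ), 0 < c ∧ 1 ≤ g ∧ ∀ (z : V) (p : ℕ), (z.1 + z.2) % 2 = 0 → g + k₀ ≤ p →
    c ≤ EZ (wpar z p 14 g) (B4 z (p - g - 2) (p + 14 + g + 2))

/-- No block is exponentially unlikely: `K.CHE_stmt` with `t = P`, `lo j = zx g 14 P j - g - 1`,
`hi j = zx g 14 P j + 14 + g + 1`, constant `a j` (`VA19`, `Pr (F4 ..) ≤ 1`), `VA7`. -/
def VA20_stmt : Prop :=
  ∃ (c : ℝ) (g k₀ : ℕ), 0 < c ∧ 1 ≤ g ∧ ∀ (z : V) (P I J : ℕ), (z.1 + z.2) % 2 = 0 → k₀ ≤ P →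
    P + J * (2 * g + 14 + 10) + 10 ≤ I →
      EZ (Nf z g 14 P J) (F4 z P I) ≤ Real.exp (-(c * J)) * a4 P I

/-! ## Assembly -/

/-- Comparison of radii and products of `a4` (`UI8_stmt` only). -/
def VA21_stmt : Prop :=
  ∃ k₀ : ℕ, ∀ s : ℕ, ∃ C : ℝ, 0 < C ∧ ∀ (N t p m : ℕ), k₀ ≤ t → t + 4 ≤ p → k₀ ≤ m →
    p + m + 3 * s + m + k₀ ≤ N →
      (a4 (p + 3) (p + m) * a4 (p + 3) (p + m) *
          a4 (p + m + 3 * s) (p + m + 3 * s + m - 3)) ^ 2 *
        (a4 (t + 1) (p + 1) * a4 (p + m + 3 * s + m - 1) N) ≤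
      C * (a4 p (p + m) ^ 3 * a4 (p + m + 3 * s) (p + m + 3 * s + m)) * a4 t N

/-- `U2ii_stmt`. `UJ3` with `W = Wc`, `U 0 = U1c`, `U 1 = U2c`, `J = 2` (`dls U 2 f = dl (U 0) (dl (U 1) f)`),
`UJ4`; `VA13`, `VA14`, `VA20` (`J = (m - 13) / (2 g + 24)`, `exp (- c J) ≤ C exp (- c' m)`), `VA21`,
`N = i - k`. -/
def VA22_stmt : Prop := U2ii_stmt

end TP
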